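import Pool.Agent.Lib.MP_c1c973_an.Gen.Chars

/- Scales at which a minimal rotation covers the group efficiently. -/

namespace Pool.Agent.Lib.MP_c1c973_an.Gen

set_option linter.unusedSectionVars false

open Filter Topology

lemma cover1 (β : ℝ) (r : ℚ) (t : ℝ) : ∃ n u : ℤ, |(n : ℝ)| ≤ r.den ∧
    |t + n * β - u| ≤ 1 / (2 * r.den) + |r.den * β - r.num| := by
  have hq : (0 : ℝ) < r.den := by exact_mod_cast r.den_pos
  have hq' : (0 : ℤ) < r.den := by exact_mod_cast r.den_pos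
  obtain ⟨a, b, hab⟩ : IsCoprime r.num (r.den : ℤ) := Int.isCoprime_iff_gcd_eq_one.2 r.reduced
  set m := round (-(r.den * t)) with hm
  set n := (a * m) % r.den with hn
  set v := (a * m) / r.den with hv
  have h0 : 0 ≤ n := Int.emod_nonneg _ hq'.ne'
  have h1 : n < r.den := Int.emod_lt_of_pos _ hq'
  have h2 : n + r.den * v = a * m := Int.emod_add_mul_ediv _ _
  have h3 : n * r.num = m - r.den * (b * m + v * r.num) := by
    linear_combination r.num * h2 + m * hab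
  have h0' : (0 : ℝ) ≤ n := by exact_mod_cast h0
  have h1' : (n : ℝ) ≤ r.den := by exact_mod_cast h1.le
  refine ⟨n, -(b * m + v * r.num), by rwa [abs_of_nonneg h0'], ?_⟩
  have h3' : (n : ℝ) * r.num = m - r.den * (b * m + v * r.num) := by exact_mod_cast h3
  have h4 := abs_sub_round (-(r.den * t))
  rw [← hm] at h4
  have h5 : r.den * (t + n * β - ((-(b * m + v * r.num) : ℤ) : ℝ)) =
      n * (r.den * β - r.num) - (-(r.den * t) - m) := by
    push_cast; linear_combination h3'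
  have h6 : r.den * |t + n * β - ((-(b * m + v * r.num) : ℤ) : ℝ)| ≤
      r.den * |r.den * β - r.num| + 1 / 2 := by
    conv_lhs => rw [← abs_of_pos hq, ← abs_mul, h5]
    refine (abs_sub _ _).trans (add_le_add ?_ h4)
    rw [abs_mul, abs_of_nonneg h0']
    exact mul_le_mul_of_nonneg_right h1' (abs_nonneg _)
  refine le_of_mul_le_mul_left (h6.trans (le_of_eq ?_)) hq
  field_simp
  ring

lemma cover2 (β : ℝ) (r : ℚ) (h0 : 0 < |r.den * β - r.num|) (h1 : r.den * |r.den * β - r.num| ≤ 1)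
    (t : ℝ) : ∃ n u : ℤ, |(n : ℝ)| * |r.den * β - r.num| ≤ 4 ∧
      |t + n * β - u| ≤ |r.den * β - r.num| / 2 := by
  obtain ⟨n, u, hn, hu⟩ := cover1 β r t
  have hq : (0 : ℝ) < r.den := by exact_mod_cast r.den_pos
  set σ := r.den * β - r.num with hσ
  set w := t + n * β - u with hw
  have hσ0 : σ ≠ 0 := abs_pos.1 h0
  set i := round (-(w / σ)) with hi
  have h2 := abs_sub_round (-(w / σ))
  rw [← hi] at h2
  have h3 : |w + i * σ| ≤ |σ| / 2 := by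
    rw [show w + i * σ = -(σ * (-(w / σ) - i)) by field_simp; ring, abs_neg, abs_mul]
    nlinarith
  have h4 : |(i : ℝ)| * |σ| ≤ |w| + |σ| / 2 := by
    rw [← abs_mul, show i * σ = (w + i * σ) - w by ring]
    linarith [abs_sub (w + i * σ) w]
  have h5 : r.den * |w| ≤ 1 / 2 + 1 := by
    refine (mul_le_mul_of_nonneg_left hu hq.le).trans ?_
    rw [mul_add]
    refine add_le_add (le_of_eq ?_) h1
    field_simp
  refine ⟨n + i * r.den, u + i * r.num, ?_, ?_⟩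
  · push_cast
    have h6 : |(n : ℝ) + i * r.den| ≤ r.den + |(i : ℝ)| * r.den := by
      refine (abs_add_le _ _).trans (add_le_add hn (le_of_eq ?_))
      rw [abs_mul, abs_of_pos hq]
    have h7 := mul_le_mul_of_nonneg_right h6 h0.le
    have h8 := mul_le_mul_of_nonneg_left h4 hq.le
    nlinarith
  · refine le_trans (le_of_eq ?_) h3
    congr 1
    rw [hw, hσ]; push_cast; ring

lemma dirichlet {β : ℝ} (hβ : Irrational β) (Λ : ℝ) : ∃ M₀ : ℕ, 0 < M₀ ∧ ∀ M : ℕ, M₀ ≤ M →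
    ∃ r : ℚ, Λ ≤ r.den ∧ (r.den : ℝ) ≤ M ∧ 0 < |r.den * β - r.num| ∧
      M * |r.den * β - r.num| ≤ 1 := by
  obtain ⟨N, hN⟩ := exists_nat_ge Λ
  obtain ⟨e, he, he'⟩ := ((hβ.eventually_forall_le_dist_cast_rat_of_den_le N).filter_mono
    (nhdsWithin_le_nhds (s := Set.Ioi 0))).and self_mem_nhdsWithin |>.exists
  obtain ⟨M₀, hM₀⟩ := exists_nat_one_div_lt (show (0 : ℝ) < e from he')
  refine ⟨M₀ + 1, M₀.succ_pos, fun M hM => ?_⟩
  obtain ⟨r, h1, h2⟩ := Real.exists_rat_abs_sub_le_and_den_le β (n := M) (by omega)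
  have hq : (0 : ℝ) < r.den := by exact_mod_cast r.den_pos
  have hq1 : (1 : ℝ) ≤ r.den := by exact_mod_cast r.den_pos
  have hM' : (M₀ : ℝ) + 1 ≤ M := by exact_mod_cast hM
  have hM0 : (0 : ℝ) ≤ M₀ := by positivity
  have h3 : r.den * β - r.num = r.den * (β - r) := by
    rw [Rat.cast_def]; field_simp
  refine ⟨r, ?_, by exact_mod_cast h2, ?_, ?_⟩
  · by_contra h
    have h4 : r.den ≤ N := by
      have : (r.den : ℝ) ≤ N := (not_le.1 h).le.trans hN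
      exact_mod_cast this
    have h5 := he r h4
    rw [Real.dist_eq] at h5
    have h6 : 1 / (((M : ℝ) + 1) * r.den) ≤ 1 / ((M₀ : ℝ) + 1) :=
      one_div_le_one_div_of_le (by positivity) (by nlinarith)
    linarith
  · rw [h3, abs_pos]
    exact mul_ne_zero hq.ne' (sub_ne_zero.2 (hβ.ne_rat r))
  · rw [h3, abs_mul, abs_of_pos hq]
    rw [le_div_iff₀ (by positivity)] at h1
    nlinarith [mul_nonneg hq.le (abs_nonneg (β - r))]

lemma circle_scale {β : ℝ} (hβ : Irrational β) (Λ : ℝ) {ε η₀ : ℝ} (hε : 0 < ε) (hε1 : ε ≤ 1)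
    (hη : 0 < η₀) : ∃ r : ℚ, Λ ≤ r.den ∧ 0 < |r.den * β - r.num| ∧ |r.den * β - r.num| ≤ η₀ ∧
      ∀ t : ℝ, ∃ n u : ℤ, |(n : ℝ)| * |r.den * β - r.num| ≤ 4 / ε ^ 2 ∧
        r.den * |t + n * β - u| ≤ ε := by
  have key : ∀ r : ℚ, 1 / η₀ ≤ r.den → r.den * |r.den * β - r.num| ≤ 1 →
      |r.den * β - r.num| ≤ η₀ := fun r h1 h2 => by
    rw [div_le_iff₀ hη] at h1
    have hq : (0 : ℝ) < r.den := by exact_mod_cast r.den_pos
    exact le_of_mul_le_mul_left (h2.trans h1) hq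
  have hε2 : ε ^ 2 ≤ ε := by nlinarith
  have hε3 : 0 < ε ^ 2 := by positivity
  obtain ⟨M₀, -, h0⟩ := dirichlet hβ (max Λ (1 / η₀))
  obtain ⟨M₁, -, h1⟩ := dirichlet hβ (max (max Λ (1 / η₀)) M₀)
  obtain ⟨r, a1, a2, a3, a4⟩ := h1 M₁ le_rfl
  have hQ : (1 : ℝ) ≤ r.den := by exact_mod_cast r.den_pos
  have a5 : r.den * |r.den * β - r.num| ≤ 1 :=
    (mul_le_mul_of_nonneg_right a2 a3.le).trans a4
  set M := ⌈2 * (r.den : ℝ) / ε ^ 2⌉₊ with hM
  have m1 : 2 * (r.den : ℝ) ≤ M * ε ^ 2 := (div_le_iff₀ hε3).1 (Nat.le_ceil _)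
  have m2 : M * ε ^ 2 ≤ 3 * (r.den : ℝ) := by
    have h2 : (M : ℝ) < 2 * (r.den : ℝ) / ε ^ 2 + 1 := Nat.ceil_lt_add_one (by positivity)
    have h3 := mul_le_mul_of_nonneg_right h2.le hε3.le
    rw [add_mul, div_mul_cancel₀ _ hε3.ne'] at h3
    linarith
  have m0 : (0 : ℝ) ≤ M := by positivity
  have m3 : (M₀ : ℝ) ≤ M := by
    have := (le_max_right _ _).trans a1
    nlinarith
  obtain ⟨r', b1, b2, b3, b4⟩ := h0 M (by exact_mod_cast m3)
  have hq : (1 : ℝ) ≤ r'.den := by exact_mod_cast r'.den_pos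
  have b5 : r'.den * |r'.den * β - r'.num| ≤ 1 :=
    (mul_le_mul_of_nonneg_right b2 b3.le).trans b4
  by_cases hc : ε * M ≤ r'.den
  · refine ⟨r, (le_max_left _ _).trans ((le_max_left _ _).trans a1), a3,
      key r ((le_max_right _ _).trans ((le_max_left _ _).trans a1)) a5, fun t => ?_⟩
    obtain ⟨n, u, hn, hu⟩ := cover1 β r' t
    refine ⟨n, u, ?_, ?_⟩
    · rw [le_div_iff₀ hε3]
      have c1 := mul_le_mul_of_nonneg_right (hn.trans b2) hε3.le
      have c2 := mul_le_mul_of_nonneg_right (c1.trans m2) a3.le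
      nlinarith
    · refine (mul_le_mul_of_nonneg_left hu (by linarith)).trans ?_
      have c1 : r.den * (1 / (2 * (r'.den : ℝ))) ≤ ε / 2 := by
        rw [mul_one_div, div_le_iff₀ (by positivity)]
        nlinarith [mul_le_mul_of_nonneg_left hc hε.le]
      have c2 : r.den * |r'.den * β - r'.num| ≤ ε / 2 := by
        have c3 := mul_le_mul_of_nonneg_right m1 b3.le
        have c4 := mul_le_mul_of_nonneg_right b4 hε3.le
        nlinarith
      linarith [mul_add (r.den : ℝ) (1 / (2 * (r'.den : ℝ))) |r'.den * β - r'.num|]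
  · refine ⟨r', (le_max_left _ _).trans b1, b3, key r' ((le_max_right _ _).trans b1) b5,
      fun t => ?_⟩
    obtain ⟨n, u, hn, hu⟩ := cover2 β r' b3 b5 t
    refine ⟨n, u, hn.trans ?_, ?_⟩
    · rw [le_div_iff₀ hε3]; linarith
    · have c1 := mul_le_mul_of_nonneg_right (not_le.1 hc).le b3.le
      have c2 := mul_le_mul_of_nonneg_left b4 hε.le
      have c3 := mul_le_mul_of_nonneg_left hu (by linarith : (0 : ℝ) ≤ r'.den)
      nlinarith

variable {X : Type*} [AddCommGroup X] [MetricSpace X] [IsTopologicalAddGroup X] [CompactSpace X]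
  {α : X}

/-- The gauge `ν` dominates `ν₀` and a character that moves with speed `η`, and every orbit comes
`ε`-close to zero in a time of order `1 / η`. -/
def Fine (α : X) (ν₀ ν : X → ℝ) (ε η : ℝ) : Prop :=
  (∀ x, ν₀ x ≤ ν x) ∧ (∃ ω : X →+ UnitAddCircle, ω α = (η : ℝ) ∧ ∀ x, ‖ω x‖ ≤ ν x) ∧
    ∀ x, ∃ n : ℤ, |(n : ℝ)| * η ≤ 4 / ε ^ 2 ∧ ν (x + n • α) ≤ ε

lemma fine_irrational {χ : X →+ UnitAddCircle} {β : ℝ} (hβ : Irrational β) (hχ : χ α = β) (Λ : ℝ)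
    {ε η₀ : ℝ} (hε : 0 < ε) (hε1 : ε ≤ 1) (hη : 0 < η₀) : ∃ κ η : ℝ, 0 ≤ κ ∧ 0 < η ∧ η ≤ η₀ ∧
      Fine α (fun x => Λ * ‖χ x‖) (fun x => κ * ‖χ x‖) ε η := by
  obtain ⟨r, h1, h2, h3, h4⟩ := circle_scale hβ Λ hε hε1 hη
  have hz : ∀ u : ℤ, ((u : ℝ) : UnitAddCircle) = 0 := fun u =>
    (AddCircle.coe_eq_zero_iff _).2 ⟨u, by simp⟩
  have hq : (r.den : ℤ) • χ α = ((r.den * β - r.num : ℝ) : UnitAddCircle) := by
    rw [hχ, AddCircle.coe_sub, hz, sub_zero, ← AddCircle.coe_zsmul]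
    simp
  have hn : ∀ x, ‖(r.den : ℤ) • χ x‖ ≤ r.den * ‖χ x‖ := fun x => by
    simpa using norm_nsmul_le (n := r.den) (a := χ x)
  refine ⟨r.den, _, by positivity, h2, h3,
    fun x => mul_le_mul_of_nonneg_right h1 (norm_nonneg _), ?_, fun x => ?_⟩
  · rcases abs_choice (r.den * β - r.num) with e | e
    · exact ⟨(r.den : ℤ) • χ, by rw [e, ← hq]; rfl, hn⟩
    · refine ⟨-((r.den : ℤ) • χ), by rw [e, AddCircle.coe_neg, ← hq]; rfl, fun x => ?_⟩
      rw [AddMonoidHom.neg_apply, norm_neg]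
      exact hn x
  · obtain ⟨t, ht⟩ := QuotientAddGroup.mk_surjective (χ x)
    obtain ⟨n, u, a1, a2⟩ := h4 t
    refine ⟨n, a1, le_trans (mul_le_mul_of_nonneg_left ?_ (by positivity)) a2⟩
    have e : χ (x + n • α) = ((t + n * β - u : ℝ) : UnitAddCircle) := by
      rw [map_add, map_zsmul, hχ, ← ht, AddCircle.coe_sub, hz, sub_zero, AddCircle.coe_add,
        ← AddCircle.coe_zsmul, zsmul_eq_mul]
    rw [e]
    exact QuotientAddGroup.norm_mk_le_norm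

lemma exists_gen {c : UnitAddCircle} (hc : IsOfFinAddOrder c) : ∃ a m : ℤ,
    a • c = ((1 / addOrderOf c : ℝ) : UnitAddCircle) ∧
      c = m • ((1 / addOrderOf c : ℝ) : UnitAddCircle) := by
  have hq := hc.addOrderOf_pos
  obtain ⟨m, -, h1, h2⟩ := (AddCircle.addOrderOf_eq_pos_iff (p := 1) hq).1 rfl
  generalize addOrderOf c = q at hq h1 h2
  obtain ⟨a, b, hab⟩ : IsCoprime (m : ℤ) (q : ℤ) := Nat.isCoprime_iff_coprime.2 h1
  have hq' : (q : ℝ) ≠ 0 := by positivity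
  refine ⟨a, m, ?_, ?_⟩
  · rw [← h2, ← AddCircle.coe_zsmul, eq_comm, ← sub_eq_zero, ← AddCircle.coe_sub,
      AddCircle.coe_eq_zero_iff]
    refine ⟨b, ?_⟩
    have : (a : ℝ) * m + b * q = 1 := by exact_mod_cast hab
    simp only [zsmul_eq_mul]
    field_simp
    linear_combination this
  · rw [← h2, ← AddCircle.coe_zsmul]
    congr 1
    simp [div_eq_mul_inv]

lemma fine_torsion [Infinite X] (hα : DenseRange fun n : ℤ => n • α)
    (ht : ∀ χ : X →+ UnitAddCircle, Continuous χ → IsOfFinAddOrder (χ α))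
    {χ : X →+ UnitAddCircle} (hχ : Continuous χ) (Λ : ℝ) {ε η₀ : ℝ} (hε : 0 < ε) (hε1 : ε ≤ 1)
    (hη : 0 < η₀) : ∃ χ' : X →+ UnitAddCircle, Continuous χ' ∧ ∃ κ η : ℝ, 0 ≤ κ ∧ 0 < η ∧ η ≤ η₀ ∧
      Fine α (fun x => Λ * ‖χ x‖) (fun x => κ * ‖χ' x‖) ε η := by
  obtain ⟨N, hN⟩ := exists_nat_ge (1 / η₀)
  obtain ⟨χ₁, c1, c2⟩ : ∃ χ₁ : X →+ UnitAddCircle, Continuous χ₁ ∧ N < addOrderOf (χ₁ α) := by
    by_contra h
    push Not at h
    refine infinite_chars hα (((Set.finite_Icc 1 N).biUnion fun q hq =>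
      AddCircle.finite_setOfPred_addOrderOf_eq (p := 1) (n := q) hq.1).subset ?_)
    rintro _ ⟨ψ, hψ, rfl⟩
    exact Set.mem_biUnion (x := addOrderOf (ψ α)) ⟨(ht ψ hψ).addOrderOf_pos, h ψ hψ⟩ rfl
  obtain ⟨a₀, m₀, e1, e2⟩ := exists_gen (ht χ hχ)
  obtain ⟨a₁, -, e3, -⟩ := exists_gen (ht χ₁ c1)
  have p0 := (ht χ hχ).addOrderOf_pos
  have p1 := (ht χ₁ c1).addOrderOf_pos
  generalize addOrderOf (χ α) = q₀ at e1 e2 p0
  generalize addOrderOf (χ₁ α) = q₁ at e3 p1 c2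
  set q := Nat.lcm q₀ q₁ with hq
  have p2 : 0 < q := Nat.lcm_pos p0 p1
  have p2' : (0 : ℝ) < q := by exact_mod_cast p2
  let χ' := (Nat.gcdB q₀ q₁ * a₀) • χ + (Nat.gcdA q₀ q₁ * a₁) • χ₁
  have d1 : Continuous χ' := (hχ.zsmul _).add (c1.zsmul _)
  have d2 : χ' α = ((1 / q : ℝ) : UnitAddCircle) := by
    change (Nat.gcdB q₀ q₁ * a₀) • χ α + (Nat.gcdA q₀ q₁ * a₁) • χ₁ α = _
    rw [mul_smul, mul_smul, e1, e3, ← AddCircle.coe_zsmul, ← AddCircle.coe_zsmul,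
      ← AddCircle.coe_add]
    congr 1
    have g1 : ((Nat.gcd q₀ q₁ : ℕ) : ℝ) = q₀ * Nat.gcdA q₀ q₁ + q₁ * Nat.gcdB q₀ q₁ := by
      exact_mod_cast Nat.gcd_eq_gcd_ab q₀ q₁
    have g2 : ((Nat.gcd q₀ q₁ : ℕ) : ℝ) * q = q₀ * q₁ := by exact_mod_cast Nat.gcd_mul_lcm q₀ q₁
    have g3 : (q₀ : ℝ) ≠ 0 := by positivity
    have g4 : (q₁ : ℝ) ≠ 0 := by positivity
    simp only [zsmul_eq_mul]
    field_simp
    linear_combination g2 - q * g1
  obtain ⟨k, hk⟩ := Nat.dvd_lcm_left q₀ q₁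
  have d3 : ∀ x, χ x = (m₀ * k) • χ' x := fun x => by
    have g1 : χ α = (m₀ * k) • χ' α := by
      rw [e2, d2, mul_smul, ← AddCircle.coe_zsmul (n := (k : ℤ))]
      congr 2
      have g2 : (q : ℝ) = q₀ * k := by exact_mod_cast hk
      have g3 : (q₀ : ℝ) ≠ 0 := by positivity
      simp only [zsmul_eq_mul, Int.cast_natCast]
      field_simp
      exact g2
    refine hα.induction_on x (isClosed_eq hχ (d1.zsmul _)) fun n => ?_
    rw [map_zsmul, map_zsmul, g1, smul_comm]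
  have d4 : (q : ℤ) • χ' α = 0 := by
    rw [d2, ← AddCircle.coe_zsmul, AddCircle.coe_eq_zero_iff]
    exact ⟨1, by simp [p2'.ne']⟩
  refine ⟨χ', d1, max 1 (|Λ| * |((m₀ * k : ℤ) : ℝ)|), 1 / q, by positivity, by positivity, ?_,
    fun x => ?_, ⟨χ', d2, fun x => le_mul_of_one_le_left (norm_nonneg _) (le_max_left _ _)⟩,
    fun x => ?_⟩
  · have g1 : (N : ℝ) ≤ q := by
      exact_mod_cast c2.le.trans (Nat.le_of_dvd p2 (Nat.dvd_lcm_right q₀ q₁))
    rw [div_le_iff₀ hη] at hN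
    rw [div_le_iff₀ p2']
    nlinarith
  · have g1 : ‖χ x‖ ≤ |((m₀ * k : ℤ) : ℝ)| * ‖χ' x‖ := by
      rw [d3]
      exact norm_zsmul_le _ _
    refine (mul_le_mul_of_nonneg_right (le_abs_self Λ) (norm_nonneg _)).trans
      ((mul_le_mul_of_nonneg_left g1 (abs_nonneg _)).trans ?_)
    rw [← mul_assoc]
    exact mul_le_mul_of_nonneg_right (le_max_right _ _) (norm_nonneg _)
  · have g1 : (Set.range fun n : ℤ => n • χ' α).Finite := (ht χ' d1).finite_zmultiples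
    obtain ⟨n, hn⟩ : χ' x ∈ Set.range fun n : ℤ => n • χ' α :=
      hα.induction_on x (g1.isClosed.preimage d1) fun n => ⟨n, (map_zsmul χ' n α).symm⟩
    have q0 : (0 : ℤ) < q := by exact_mod_cast p2
    have g2 : (0 : ℝ) ≤ (n % q : ℤ) := by exact_mod_cast Int.emod_nonneg n q0.ne'
    have g3 : ((n % q : ℤ) : ℝ) ≤ q := by exact_mod_cast (Int.emod_lt_of_pos n q0).le
    refine ⟨-(n % q), ?_, ?_⟩
    · rw [Int.cast_neg, abs_neg, abs_of_nonneg g2, mul_one_div]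
      refine ((div_le_one p2').2 g3).trans ?_
      rw [le_div_iff₀ (by positivity)]
      nlinarith
    · have g4 : χ' (x + -(n % q) • α) = 0 := by
        rw [map_add, map_zsmul, ← hn, ← add_smul, show n + -(n % q) = n / q * q by
          linear_combination -Int.emod_add_ediv_mul n q, mul_smul, d4, smul_zero]
      simp only [g4, norm_zero, mul_zero]
      exact hε.le

theorem exists_class [Infinite X] (hα : DenseRange fun n : ℤ => n • α) :
    ∃ C : Set (X →+ UnitAddCircle), C.Nonempty ∧ (∀ χ ∈ C, Continuous χ) ∧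
      ∀ χ ∈ C, ∀ Λ ε η₀ : ℝ, 0 < ε → ε ≤ 1 → 0 < η₀ → ∃ χ' ∈ C, ∃ κ η : ℝ, 0 ≤ κ ∧ 0 < η ∧
        η ≤ η₀ ∧ Fine α (fun x => Λ * ‖χ x‖) (fun x => κ * ‖χ' x‖) ε η := by
  by_cases ht : ∀ χ : X →+ UnitAddCircle, Continuous χ → IsOfFinAddOrder (χ α)
  · exact ⟨{χ | Continuous χ}, ⟨0, continuous_const⟩, fun _ h => h,
      fun χ hχ Λ ε η₀ h1 h2 h3 => fine_torsion hα ht hχ Λ h1 h2 h3⟩
  push Not at ht
  obtain ⟨χ, h1, h2⟩ := ht
  obtain ⟨β, hβ⟩ := QuotientAddGroup.mk_surjective (χ α)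
  have h3 : Irrational β := by
    rintro ⟨r, hr⟩
    refine h2 (hβ ▸ AddCircle.isOfFinAddOrder_iff_exists_rat_eq_div.2 ⟨r, by simpa using hr⟩)
  refine ⟨{χ}, ⟨χ, rfl⟩, by rintro _ rfl; exact h1, ?_⟩
  intro ψ hψ Λ ε η₀ a1 a2 a3
  rw [Set.mem_singleton_iff.1 hψ]
  exact ⟨χ, rfl, fine_irrational h3 hβ.symm Λ a1 a2 a3⟩

end Pool.Agent.Lib.MP_c1c973_an.Gen
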