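import Mathlib

/- An infinite compact monothetic group has infinitely many continuous characters. -/

namespace Pool.Agent.Lib.MP_c1c973_an.Gen

set_option linter.unusedSectionVars false

open Filter Topology MeasureTheory
open scoped InnerProductSpace BoundedContinuousFunction

lemma exists_gram {X H : Type*} [MetricSpace X] [CompactSpace X] [NormedAddCommGroup H]
    [InnerProductSpace ℂ H] (κ : C(X, H)) :
    ∃ S : H →L[ℂ] C(X, ℂ), IsCompactOperator S ∧ ∀ f x, S f x = ⟪κ x, f⟫_ℂ := by
  let L : H →ₗ[ℂ] (X →ᵇ ℂ) :=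
    { toFun := fun f => BoundedContinuousFunction.mkOfCompact ⟨fun x => ⟪κ x, f⟫_ℂ, by fun_prop⟩
      map_add' := fun f g => by ext x; simp
      map_smul' := fun c f => by ext x; simp }
  have hL : ∀ f x, L f x = ⟪κ x, f⟫_ℂ := fun _ _ => rfl
  have hb : ∀ f x, ‖L f x‖ ≤ ‖κ‖ * ‖f‖ := fun f x =>
    (norm_inner_le_norm _ _).trans (mul_le_mul_of_nonneg_right (κ.norm_coe_le_norm x) (norm_nonneg _))
  let S₀ : H →L[ℂ] (X →ᵇ ℂ) := L.mkContinuous ‖κ‖ fun f =>
    (BoundedContinuousFunction.norm_le (by positivity)).2 (hb f)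
  have hc : IsCompactOperator S₀.toLinearMap := by
    rw [isCompactOperator_iff_isCompact_closure_image_closedBall _ one_pos]
    refine BoundedContinuousFunction.arzela_ascoli (Metric.closedBall 0 ‖κ‖)
      (isCompact_closedBall _ _) _ ?_ ?_
    · rintro _ x ⟨f, hf, rfl⟩
      rw [mem_closedBall_zero_iff] at hf ⊢
      exact (hb f x).trans (mul_le_of_le_one_right (norm_nonneg _) hf)
    · intro x₀
      refine Metric.equicontinuousAt_of_continuity_modulus (fun x => ‖κ x₀ - κ x‖) ?_ _
        (.of_forall ?_)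
      · have h : Continuous fun x => ‖κ x₀ - κ x‖ := by fun_prop
        simpa using h.tendsto x₀
      · rintro x ⟨_, f, hf, rfl⟩
        rw [mem_closedBall_zero_iff] at hf
        change dist (L f x₀) (L f x) ≤ _
        rw [hL, hL, dist_eq_norm, ← inner_sub_left]
        exact (norm_inner_le_norm _ _).trans (mul_le_of_le_one_right (norm_nonneg _) hf)
  let e := (ContinuousMap.linearIsometryBoundedOfCompact X ℂ ℂ).symm.toContinuousLinearEquiv
  exact ⟨e.toContinuousLinearMap.comp S₀, hc.continuous_comp e.continuous, fun _ _ => rfl⟩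

variable {X : Type*} [AddCommGroup X] [MetricSpace X] [IsTopologicalAddGroup X] [CompactSpace X]
  {α : X}

lemma char_of_eigen (hα : DenseRange fun n : ℤ => n • α) {g : C(X, ℂ)} (hg : g ≠ 0) {c : ℂ}
    (h : ∀ x, g (x + α) = c * g x) :
    ∃ χ : X →+ UnitAddCircle, Continuous χ ∧ ((χ α).toCircle : ℂ) = c := by
  have hc : c ≠ 0 := fun e => hg (by
    ext x
    simpa [e] using h (x - α))
  have h1 : ∀ (n : ℤ) x, g (x + n • α) = c ^ n * g x := fun n x => by
    induction n using Int.induction_on with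
    | zero => simp
    | succ n ih => rw [add_smul, one_smul, ← add_assoc, h, ih, zpow_add_one₀ hc]; ring
    | pred n ih =>
      have h2 := h (x + (-(n : ℤ) - 1) • α)
      rw [add_assoc, ← add_one_zsmul, sub_add_cancel, ih] at h2
      rw [zpow_sub_one₀ hc]
      field_simp
      linear_combination -h2
  have h2 : ∀ x y, g (x + y) * g 0 = g x * g y := fun x y => by
    refine hα.induction_on y (isClosed_eq (by fun_prop) (by fun_prop)) fun n => ?_
    have h3 := h1 n 0
    rw [zero_add] at h3
    rw [h1, h3]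
    ring
  have h0 : g 0 ≠ 0 := fun e => hg (by
    ext x
    refine hα.induction_on x (isClosed_eq (by fun_prop) (by fun_prop)) fun n => ?_
    have h3 := h1 n 0
    rw [zero_add, e] at h3
    simpa using h3)
  have hm : ∀ x y, g (x + y) / g 0 = g x / g 0 * (g y / g 0) := fun x y => by
    field_simp
    exact h2 x y
  have hle : ∀ x, ‖g x / g 0‖ ≤ 1 := fun x => by
    by_contra hx
    have hp : ∀ n : ℕ, ‖g (n • x) / g 0‖ = ‖g x / g 0‖ ^ n := fun n => by
      induction n with
      | zero => simp [h0]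
      | succ n ih => rw [succ_nsmul, hm, norm_mul, ih, pow_succ]
    obtain ⟨n, hn⟩ := ((tendsto_pow_atTop_atTop_of_one_lt (not_le.1 hx)).eventually_gt_atTop
      (‖g‖ / ‖g 0‖)).exists
    rw [← hp, norm_div] at hn
    exact hn.not_ge (div_le_div_of_nonneg_right (g.norm_coe_le_norm _) (norm_nonneg _))
  have hone : ∀ x, ‖g x / g 0‖ = 1 := fun x => by
    have h3 := congrArg norm (hm x (-x))
    rw [add_neg_cancel, div_self h0, norm_one, norm_mul] at h3
    refine le_antisymm (hle x) ?_
    nlinarith [hle (-x), norm_nonneg (g x / g 0), norm_nonneg (g (-x) / g 0)]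
  let u : X → Circle := fun x => ⟨g x / g 0, mem_sphere_zero_iff_norm.2 (hone x)⟩
  have hu : Continuous u := Continuous.subtype_mk (by fun_prop) _
  let e := AddCircle.homeomorphCircle (T := (1 : ℝ)) one_ne_zero
  have he : ∀ y, (e.symm y).toCircle = y := fun y => by
    rw [← AddCircle.homeomorphCircle_apply one_ne_zero]
    exact e.apply_symm_apply y
  refine ⟨AddMonoidHom.mk' (fun x => e.symm (u x)) fun x y => ?_, e.symm.continuous.comp hu, ?_⟩
  · apply AddCircle.injective_toCircle one_ne_zero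
    rw [AddCircle.toCircle_add, he, he, he]
    exact Circle.ext (hm x y)
  · rw [AddMonoidHom.mk'_apply, he]
    change g α / g 0 = c
    have h3 := h 0
    rw [zero_add] at h3
    rw [h3, mul_div_cancel_right₀ _ h0]

lemma zsmul_inj [Infinite X] (hα : DenseRange fun n : ℤ => n • α) :
    Function.Injective fun n : ℤ => n • α := by
  rw [injective_zsmul_iff_not_isOfFinAddOrder]
  intro h
  have h1 : (Set.range fun n : ℤ => n • α).Finite := h.finite_zmultiples
  have h2 := hα.closure_range
  rw [h1.isClosed.closure_eq] at h2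
  exact Set.infinite_univ (h2 ▸ h1)

/-- translation of continuous functions -/
noncomputable def tr (y : X) : C(X, ℂ) →L[ℂ] C(X, ℂ) :=
  ContinuousMap.compCLM ℂ ℂ ⟨fun x => x + y, by fun_prop⟩

@[simp] lemma tr_apply (y : X) (g : C(X, ℂ)) (x : X) : tr y g x = g (x + y) := rfl

lemma continuous_tr (k : C(X, ℂ)) : Continuous fun y : X => tr (-y) k :=
  ContinuousMap.continuous_of_continuous_uncurry _ (by
    change Continuous fun p : X × X => k (p.2 + -p.1)
    fun_prop)

theorem infinite_chars [Infinite X] (hα : DenseRange fun n : ℤ => n • α) :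
    {c : UnitAddCircle | ∃ χ : X →+ UnitAddCircle, Continuous χ ∧ χ α = c}.Infinite := by
  intro hfin
  classical
  borelize X
  let μ : Measure X := Measure.addHaar
  let s : Finset ℂ := hfin.toFinset.image fun c => (c.toCircle : ℂ)
  let P : Polynomial ℂ := ∏ c ∈ s, (Polynomial.X - Polynomial.C c)
  have hP : P.Monic := Polynomial.monic_prod_of_monic _ _ fun c _ => Polynomial.monic_X_sub_C c
  set r := P.natDegree with hr
  obtain ⟨k₀, k1, k2, -⟩ := exists_continuous_zero_one_of_isClosed
    (s := (fun j : ℕ => -((j : ℤ) • α)) '' Set.Iio r) (t := {-((r : ℤ) • α)})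
    ((Set.finite_Iio r).image _).isClosed isClosed_singleton (by
      rw [Set.disjoint_singleton_right]
      rintro ⟨j, hj, e⟩
      have := zsmul_inj hα (neg_injective e)
      exact (ne_of_lt hj) (by exact_mod_cast this))
  let k : C(X, ℂ) := ⟨fun x => (k₀ x : ℂ), by fun_prop⟩
  let ι := ContinuousMap.toLp (E := ℂ) 2 μ ℂ
  have hι : Function.Injective ι := ContinuousMap.toLp_injective μ
  let κ : C(X, Lp ℂ 2 μ) := ⟨fun y => ι (tr (-y) k), ι.continuous.comp (continuous_tr k)⟩
  obtain ⟨S, hS, hS'⟩ := exists_gram κ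
  let U : X → Lp ℂ 2 μ →ₗᵢ[ℂ] Lp ℂ 2 μ := fun y =>
    Lp.compMeasurePreservingₗᵢ ℂ (fun x => x + y) (measurePreserving_add_right μ y)
  have hU : ∀ y g, U y (ι g) = ι (tr y g) := fun y g => by
    ext1
    refine (Lp.coeFn_compMeasurePreserving _ (measurePreserving_add_right μ y)).trans ?_
    refine EventuallyEq.trans ?_ (ContinuousMap.coeFn_toLp μ (tr y g)).symm
    exact (measurePreserving_add_right μ y).quasiMeasurePreserving.ae_eq_comp
      (ContinuousMap.coeFn_toLp μ g)
  have hUU : ∀ f, U α (U (-α) f) = f := fun f => by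
    refine (ContinuousMap.toLp_denseRange ℂ μ ℂ (p := 2) ENNReal.ofNat_ne_top).induction_on f
      (isClosed_eq (by fun_prop) (by fun_prop)) fun g => ?_
    change U α (U (-α) (ι g)) = ι g
    rw [hU, hU]
    congr 1
    ext x
    simp
  have hSU : ∀ f, S (U α f) = tr α (S f) := fun f => by
    ext x
    rw [tr_apply, hS', hS', ← (U α).inner_map_map (κ (x + α))]
    congr 1
    change ι _ = U α (ι _)
    rw [hU]
    congr 1
    ext y
    simp only [tr_apply]
    congr 1
    abel
  let W : C(X, ℂ) →L[ℂ] C(X, ℂ) := ∑ j ∈ Finset.range (r + 1), P.coeff j • tr ((j : ℤ) • α)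
  have hW : ∀ g x, W g x = ∑ j ∈ Finset.range (r + 1), P.coeff j * g (x + (j : ℤ) • α) :=
    fun g x => by simp [W, ContinuousMap.coe_sum]
  let A : Lp ℂ 2 μ →L[ℂ] Lp ℂ 2 μ := ι.comp (W.comp S)
  have hA : ∀ f, A f = ι (W (S f)) := fun _ => rfl
  have hAU : ∀ f, A (U α f) = U α (A f) := fun f => by
    rw [hA, hA, hU, hSU]
    congr 1
    ext x
    simp only [hW, tr_apply, add_right_comm]
  let T := (ContinuousLinearMap.adjoint A).comp A
  have hT : ∀ f g, ⟪g, T f⟫_ℂ = ⟪A g, A f⟫_ℂ := fun f g =>
    ContinuousLinearMap.adjoint_inner_right A g (A f)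
  have hTc : IsCompactOperator T :=
    hS.continuous_comp ((ContinuousLinearMap.adjoint A).comp (ι.comp W)).continuous
  have hTs : T.IsSymmetric := fun f g => by
    change ⟪T f, g⟫_ℂ = ⟪f, T g⟫_ℂ
    rw [hT, ← inner_conj_symm, hT, inner_conj_symm]
  have hT0 : T ≠ 0 := fun e => by
    let u : C(X, ℂ) := ∑ j ∈ Finset.range (r + 1), (starRingEnd ℂ) (P.coeff j) •
      tr (-((j : ℤ) • α)) k
    have h1 : A (ι u) = 0 := by
      have h2 := hT (ι u) (ι u)
      rw [e, zero_apply, inner_zero_right] at h2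
      exact inner_self_eq_zero.1 h2.symm
    have h2 : W (S (ι u)) = 0 := hι (by rw [← hA, h1, map_zero])
    have h3 : W (S (ι u)) 0 = ⟪ι u, ι u⟫_ℂ := by
      rw [hW]
      conv_rhs => arg 2; simp only [u, map_sum, map_smul]
      rw [sum_inner]
      refine Finset.sum_congr rfl fun j _ => ?_
      rw [inner_smul_left, hS', zero_add, starRingEnd_self_apply]
      rfl
    rw [h2] at h3
    have h4 : u = 0 := hι (by rw [inner_self_eq_zero.1 h3.symm, map_zero])
    have h5 : u 0 = 1 := by
      simp only [u, ContinuousMap.coe_sum, Finset.sum_apply, ContinuousMap.smul_apply, tr_apply,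
        zero_add, smul_eq_mul]
      rw [Finset.sum_range_succ, Finset.sum_eq_zero fun j hj => ?_]
      · have h6 : k₀ (-((r : ℤ) • α)) = 1 := k2 rfl
        have h7 : P.coeff r = 1 := hP
        simp [k, h6, h7, -natCast_zsmul]
      · have h6 : k₀ (-((j : ℤ) • α)) = 0 := k1 ⟨j, Finset.mem_range.1 hj, rfl⟩
        simp [k, h6, -natCast_zsmul]
    rw [h4] at h5
    simp at h5
  rw [Ne, ← ContinuousLinearMap.eq_zero_of_forall_hasEigenvalue_eq_zero hTc hTs] at hT0
  push Not at hT0
  obtain ⟨l, hl, hl0⟩ := hT0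
  have hfd := ContinuousLinearMap.finite_dimensional_eigenspace hTc l hl0
  have hnt : Nontrivial (Module.End.eigenspace T.toLinearMap l) :=
    Submodule.nontrivial_iff_ne_bot.2 hl
  have hTU : ∀ f, T (U α f) = U α (T f) := fun f => by
    refine ext_inner_left ℂ fun g => ?_
    rw [← hUU g, hT, hAU, hAU, (U α).inner_map_map, (U α).inner_map_map, hT]
  have hinv : ∀ f ∈ Module.End.eigenspace T.toLinearMap l,
      (U α).toLinearMap f ∈ Module.End.eigenspace T.toLinearMap l := fun f hf => by
    rw [Module.End.mem_eigenspace_iff] at hf ⊢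
    change T (U α f) = l • U α f
    rw [hTU, ← map_smul]
    exact congrArg _ hf
  obtain ⟨c, hc⟩ := Module.End.exists_eigenvalue ((U α).toLinearMap.restrict hinv)
  obtain ⟨⟨f, hf⟩, hf1, hf2⟩ := hc.exists_hasEigenvector
  rw [Module.End.mem_eigenspace_iff] at hf1
  have hf3 : U α f = c • f := congrArg Subtype.val hf1
  have hf4 : f ≠ 0 := fun e => hf2 (Subtype.ext e)
  have hf5 : W (S f) ≠ 0 := fun e => by
    have h1 : T f = l • f := Module.End.mem_eigenspace_iff.1 hf
    have h2 : T f = 0 := by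
      change ContinuousLinearMap.adjoint A (A f) = 0
      rw [hA, e, map_zero, map_zero]
    rw [h2] at h1
    exact smul_ne_zero hl0 hf4 h1.symm
  have h1 : ∀ x, S f (x + α) = c * S f x := fun x => by
    rw [← tr_apply, ← hSU, hf3, map_smul]
    rfl
  have h2 : ∀ (j : ℕ) x, S f (x + (j : ℤ) • α) = c ^ j * S f x := fun j x => by
    induction j with
    | zero => simp
    | succ j ih =>
      rw [Nat.cast_succ, add_smul, one_smul, ← add_assoc, h1, ih]
      ring
  obtain ⟨χ, hχ, hχ'⟩ := char_of_eigen hα (g := S f) (fun e => hf5 (by rw [e, map_zero])) h1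
  have h3 : P.eval c = 0 := by
    rw [Polynomial.eval_prod]
    refine Finset.prod_eq_zero (i := c) (Finset.mem_image.2 ⟨χ α, ?_, hχ'⟩) (by simp)
    exact hfin.mem_toFinset.2 ⟨χ, hχ, rfl⟩
  refine hf5 ?_
  ext x
  rw [hW]
  simp only [h2, ← mul_assoc, ← Finset.sum_mul]
  rw [← Polynomial.eval_eq_sum_range, h3]
  simp

end Pool.Agent.Lib.MP_c1c973_an.Gen
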