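import Pool.Agent.Lib.MP_c1c973_an.Gen.Sum

/- Orbits with Birkhoff sums unbounded in both directions are dense, and they exist. -/

namespace Pool.Agent.Lib.MP_c1c973_an.Gen

set_option linter.unusedSectionVars false

open Filter Topology

variable {X : Type*} [AddCommGroup X] [MetricSpace X] [IsTopologicalAddGroup X] [CompactSpace X]
  {α : X}

lemma int_ivt (v : ℤ → ℝ) (D A : ℝ) (hD : ∀ b, |v (b + 1) - v b| ≤ D)
    (h1 : ∃ b, v b < A) (h2 : ∃ b, A ≤ v b) : ∃ b, A ≤ v b ∧ v b ≤ A + D := by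
  by_contra hcon
  push Not at hcon
  obtain ⟨b1, hb1⟩ := h1
  obtain ⟨b2, hb2⟩ := h2
  have hall : ∀ b, v b < A := by
    intro b
    induction b using Int.inductionOn' (b := b1) with
    | zero => exact hb1
    | succ k _ ih =>
      by_contra h
      have h3 := hcon (k + 1) (not_lt.1 h)
      have h4 := (abs_le.1 (hD k)).2
      linarith
    | pred k _ ih =>
      by_contra h
      have h3 := hcon (k - 1) (not_lt.1 h)
      have h4 := (abs_le.1 (hD (k - 1))).1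
      rw [sub_add_cancel] at h4
      linarith
  exact absurd (hall b2) (not_lt.2 hb2)

lemma nat_cross (G : ℕ → ℝ) (N : ℕ) {r σ : ℝ} (hσ : 0 ≤ σ) (h0 : G 0 ≤ r) (hN : r ≤ G N)
    (hs : ∀ i, i < N → G (i + 1) ≤ G i + σ) : ∃ i, i ≤ N ∧ r ≤ G i ∧ G i ≤ r + σ := by
  induction N with
  | zero => exact ⟨0, le_rfl, hN, by linarith⟩
  | succ N ih =>
    by_cases h : r ≤ G N
    · obtain ⟨i, h1, h2⟩ := ih h fun i hi => hs i (by omega)
      exact ⟨i, by omega, h2⟩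
    · exact ⟨N + 1, le_rfl, hN, by linarith [hs N (Nat.lt_succ_self N), not_le.1 h]⟩

namespace Dat

variable (P : Dat α)

lemma Ψ_near (x : X) (a b : ℤ) : |P.Ψ x a - P.Ψ x b| ≤ 4 * |(a : ℝ) - b| * P.s 0 := by
  have a1 := P.Ψ_add x b (a - b)
  have a2 := P.Ψ_split 0 (x + b • α) (a - b)
  rw [add_sub_cancel] at a1
  rw [a1, add_sub_cancel_left]
  simpa [F] using a2

lemma key (K : ℕ) {x y : X} {δ : ℝ} {u u' : ℤ}
    (h1 : ∑ i ∈ Finset.range K, P.g i (x + u • α - y) ≤ δ)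
    (h2 : ∑ i ∈ Finset.range K, P.g i (x + u' • α - y) ≤ δ)
    (h3 : P.s K * P.H K ≤ P.g K (x + u • α) ∧ P.g K (x + u • α) ≤ 2 * (P.s K * P.H K))
    (h4 : P.s K * P.H K ≤ P.g K (x + u' • α) ∧ P.g K (x + u' • α) ≤ 2 * (P.s K * P.H K)) :
    |P.Ψ x u' - P.Ψ x u - (P.θ K * P.g K (x + u' • α) - P.θ K * P.g K (x + u • α))| ≤
      4 * δ + 4 * (|(u' : ℝ) - u| * P.s (K + 1)) := by
  have a1 := P.Ψ_add x u (u' - u)
  have a2 := abs_le.1 (P.Ψ_split (K + 1) (x + u • α) (u' - u))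
  rw [add_sub_cancel] at a1
  rw [add_assoc x, ← add_smul, add_sub_cancel, F_succ, F_succ, P.ψ_slow K h3.1 h3.2,
    P.ψ_slow K h4.1 h4.2, Int.cast_sub] at a2
  have a3 := abs_le.1 (P.F_lip K y (x + u • α - y))
  have a4 := abs_le.1 (P.F_lip K y (x + u' • α - y))
  rw [add_sub_cancel] at a3 a4
  exact abs_le.2 ⟨by linarith [a2.1, a3.2, a4.1], by linarith [a2.2, a3.1, a4.2]⟩

lemma dense_core {x : X} (h1 : ∀ B, ∃ n, P.Ψ x n < B) (h2 : ∀ B, ∃ n, B < P.Ψ x n) (y : X)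
    (r : ℝ) {ε : ℝ} (hε : 0 < ε) : ∃ n : ℤ, dist (x + n • α) y < ε ∧ |P.Ψ x n - r| < ε := by
  obtain ⟨K, hK⟩ := exists_nat_ge (7 / ε)
  have L := P.lv K
  have d2 := D2 K
  have hs' := P.s_succ K
  have s'0 := (P.lv (K + 1)).s_pos
  have hH := P.H_pos K
  have hkey := @key _ _ _ _ _ _ P K x y (1 / (K + 2))
  have hgt := P.g_time K
  rw [div_le_iff₀ hε] at hK
  generalize P.s (K + 1) = s' at *
  generalize P.s K = s at *
  generalize P.H K = H at *
  generalize P.θ K = θ at *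
  generalize P.N K = N at *
  generalize P.ρ K = ρ at *
  generalize P.g K = g at *
  have hK' : 7 ≤ ((K : ℝ) + 2) * ε := by linarith
  generalize (K : ℝ) + 2 = D at *
  obtain ⟨hg, s0, t0, t1, N0, r1, slow, big1, big2, -, low, -, cov, ret⟩ := L
  have D0 : 0 < D := by linarith
  have DD : 4 ≤ D ^ 2 := by nlinarith
  obtain ⟨δ, hδ⟩ : ∃ δ, δ = 1 / D := ⟨_, rfl⟩
  rw [← hδ] at ret hkey
  have δ1 : D * δ = 1 := by rw [hδ]; field_simp
  have δ0 : 0 < δ := by rw [hδ]; positivity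
  have δ2 : δ ≤ 1 / 2 := by nlinarith
  have δ3 : 7 * δ ≤ ε := by nlinarith
  obtain ⟨e, he⟩ : ∃ e, 64 * D ^ 2 * e = s * H := ⟨s * H / (64 * D ^ 2), by field_simp⟩
  have e0 : 0 ≤ e := le_of_mul_le_mul_left (by rw [he, mul_zero]; positivity)
    (by positivity : 0 < 64 * D ^ 2)
  have f1 : θ * s * (2 * N + 1) ≤ δ := le_of_mul_le_mul_right (by linarith) D0
  have f2 : 8 * (N + 1) * s' ≤ δ := le_of_mul_le_mul_left (by
    have := mul_le_mul_of_nonneg_right big2 s'0.le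
    nlinarith) (by positivity : 0 < D ^ 2)
  have f3 : ρ * H * s' = ρ * D := by rw [← hs']; ring
  have f4 : 10 + 12 * (ρ * D) ≤ 4 * (θ * e) := le_of_mul_le_mul_left (by
    rw [← he] at big1
    linarith) (by positivity : 0 < 16 * D ^ 2)
  have f6 : 256 * e ≤ s * H := by nlinarith
  have f7 : 32 * (N + 1) ≤ H := by nlinarith
  obtain ⟨T, T1, T2⟩ : ∃ T : ℕ, H ≤ 8 * D ^ 2 * T ∧ 8 * D ^ 2 * T ≤ 2 * H := by
    refine ⟨⌈H / (8 * D ^ 2)⌉₊, ?_, ?_⟩
    · have := (div_le_iff₀ (by positivity)).1 (Nat.le_ceil (H / (8 * D ^ 2)))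
      linarith
    · have a1 := mul_le_mul_of_nonneg_left
        (Nat.ceil_lt_add_one (by positivity : 0 ≤ H / (8 * D ^ 2))).le (by positivity : 0 ≤ 8 * D ^ 2)
      rw [mul_add, mul_div_cancel₀ _ (by positivity)] at a1
      nlinarith
  have T0 : (0 : ℝ) ≤ T := by positivity
  have T3 : 16 * T ≤ H := by nlinarith
  have T4 : 8 * (θ * e) ≤ θ * s * T := le_of_mul_le_mul_left (by
    have := mul_le_mul_of_nonneg_left T1 (mul_pos t0 s0).le
    have a2 : θ * (64 * D ^ 2 * e) = θ * (s * H) := by rw [he]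
    linarith) (by positivity : 0 < 8 * D ^ 2)
  have T5 : 4 * (T * s') ≤ δ := le_of_mul_le_mul_left (by
    have := mul_le_mul_of_nonneg_right T2 s'0.le
    nlinarith) (by positivity : 0 < D ^ 2)
  have j1 := abs_le.1 (abs_sub_round (3 * H / 2))
  generalize round (3 * H / 2) = j₀ at j1
  obtain ⟨n, n1, n2⟩ : ∃ n : ℤ → ℤ, (∀ b, |(n b : ℝ) - b| ≤ ρ * H) ∧ ∀ b u : ℤ,
      0 ≤ (j₀ : ℝ) + (u - n b) → (j₀ : ℝ) + (u - n b) ≤ 8 * H →
        |g (x + u • α) - s * (j₀ + (u - n b))| ≤ e := by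
    choose c c1 c2 _ using cov
    refine ⟨fun b => b + c (x + b • α - j₀ • α), fun b => by simpa using c1 _, fun b u a1 a2 => ?_⟩
    have a3 := c2 (x + b • α - j₀ • α)
    beta_reduce at a1 a2 ⊢
    generalize c (x + b • α - j₀ • α) = m at *
    have a4 := hg.abs_le (x + u • α) ((j₀ + (u - (b + m))) • α)
    have a5 : x + u • α - (j₀ + (u - (b + m))) • α = x + b • α - j₀ • α + m • α := by module
    have a6 := low (j₀ + (u - (b + m))) (by rwa [Int.cast_add, Int.cast_sub, abs_of_nonneg a1])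
    have a7 := hgt (j₀ + (u - (b + m)))
    rw [Int.cast_add, Int.cast_sub, abs_of_nonneg a1] at a6 a7
    rw [a5, le_antisymm a7 a6] at a4
    exact a4.trans (le_of_mul_le_mul_left (by linarith) (by positivity : 0 < 64 * D ^ 2))
  obtain ⟨t, u1, u2, u3⟩ : ∃ t : ℤ → ℤ, (∀ a, |(t a : ℝ) - a| ≤ N) ∧
      (∀ a, dist (x + t a • α) y < δ) ∧
        ∀ a, ∑ i ∈ Finset.range K, P.g i (x + t a • α - y) ≤ δ := by
    choose c c1 c2 c3 using ret
    refine ⟨fun a => a + c (x + a • α) y, fun a => by simpa using c1 _ _, fun a => ?_, fun a => ?_⟩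
    · simpa only [add_smul, ← add_assoc] using c2 (x + a • α) y
    · simpa only [add_smul, ← add_assoc] using c3 (x + a • α) y
  have zone : ∀ (b : ℤ) (i : ℕ), i ≤ T →
      |θ * g (x + t (n b + i) • α) - θ * s * (j₀ + (t (n b + i) - n b))| ≤ θ * e ∧
        s * H ≤ g (x + t (n b + i) • α) ∧ g (x + t (n b + i) • α) ≤ 2 * (s * H) := fun b i hi => by
    have a1 := abs_le.1 (u1 (n b + i))
    have a2 : (i : ℝ) ≤ T := by exact_mod_cast hi
    have a3 : (0 : ℝ) ≤ i := by positivity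
    push_cast at a1
    have a4 : 5 / 4 * H ≤ (j₀ : ℝ) + (t (n b + i) - n b) := by linarith [a1.1, j1.2]
    have a5 : (j₀ : ℝ) + (t (n b + i) - n b) ≤ 7 / 4 * H := by linarith [a1.2, j1.1]
    have a6 := n2 b (t (n b + i)) (by linarith) (by linarith)
    have a7 := mul_le_mul_of_nonneg_left a4 s0.le
    have a8 := mul_le_mul_of_nonneg_left a5 s0.le
    refine ⟨?_, by linarith [(abs_le.1 a6).1], by linarith [(abs_le.1 a6).2]⟩
    rw [mul_assoc, ← mul_sub, abs_mul, abs_of_pos t0]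
    exact mul_le_mul_of_nonneg_left a6 t0.le
  have ts : 0 < θ * s := mul_pos t0 s0
  have r0 : 0 ≤ ρ * D := by positivity
  have near : ∀ b, |P.Ψ x (t (n b + (0 : ℕ))) - P.Ψ x b| ≤ 4 * (N + ρ * H) * P.s 0 := fun b => by
    refine (P.Ψ_near x _ b).trans (mul_le_mul_of_nonneg_right ?_ (P.lv 0).s_pos.le)
    have a1 := abs_le.1 (u1 (n b + (0 : ℕ)))
    have a2 := abs_le.1 (n1 b)
    push_cast at a1 ⊢
    exact mul_le_mul_of_nonneg_left (abs_le.2 ⟨by linarith, by linarith⟩) (by norm_num)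
  obtain ⟨b, b1, b2⟩ := int_ivt (fun b => P.Ψ x (t (n b + (0 : ℕ)))) (3 + 8 * (ρ * D) + 2 * (θ * e))
    (r - (3 + 8 * (ρ * D) + 2 * (θ * e))) (fun b => by
      obtain ⟨a1, a2⟩ := zone b 0 T.zero_le
      obtain ⟨a3, a4⟩ := zone (b + 1) 0 T.zero_le
      have a5 := abs_le.1 (hkey (u3 _) (u3 _) a2 a4)
      have a6 := abs_le.1 (u1 (n b + (0 : ℕ)))
      have a7 := abs_le.1 (u1 (n (b + 1) + (0 : ℕ)))
      have a8 := abs_le.1 (n1 b)
      have a9 := abs_le.1 (n1 (b + 1))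
      generalize t (n b + (0 : ℕ)) = u at *
      generalize t (n (b + 1) + (0 : ℕ)) = u' at *
      push_cast at a6 a7 a9
      have c1 : |(u' : ℝ) - u| ≤ 2 * N + 2 * (ρ * H) + 1 := abs_le.2 ⟨by linarith, by linarith⟩
      have c2 := mul_le_mul_of_nonneg_right c1 s'0.le
      have c3 := mul_le_mul_of_nonneg_left a6.1 ts.le
      have c4 := mul_le_mul_of_nonneg_left a6.2 ts.le
      have c5 := mul_le_mul_of_nonneg_left a7.1 ts.le
      have c6 := mul_le_mul_of_nonneg_left a7.2 ts.le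
      rw [abs_le] at a1 a3 ⊢
      exact ⟨by linarith [a1.2, a3.1, a5.1], by linarith [a1.1, a3.2, a5.2]⟩)
    (by
      obtain ⟨b, hb⟩ := h1 (r - (3 + 8 * (ρ * D) + 2 * (θ * e)) - 4 * (N + ρ * H) * P.s 0)
      exact ⟨b, by linarith [(abs_le.1 (near b)).2]⟩)
    (by
      obtain ⟨b, hb⟩ := h2 (r - (3 + 8 * (ρ * D) + 2 * (θ * e)) + 4 * (N + ρ * H) * P.s 0)
      exact ⟨b, by linarith [(abs_le.1 (near b)).1]⟩)
  obtain ⟨i, -, i1, i2⟩ := nat_cross (fun i => P.Ψ x (t (n b + i))) T (r := r) (σ := 6 * δ)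
    (by positivity) (by linarith) (by
      obtain ⟨a1, a2⟩ := zone b 0 T.zero_le
      obtain ⟨a3, a4⟩ := zone b T le_rfl
      have a5 := abs_le.1 (hkey (u3 _) (u3 _) a2 a4)
      have a6 := abs_le.1 (u1 (n b + (0 : ℕ)))
      have a7 := abs_le.1 (u1 (n b + T))
      generalize t (n b + (0 : ℕ)) = u at *
      generalize t (n b + T) = u' at *
      push_cast at a6 a7
      have c1 : |(u' : ℝ) - u| ≤ T + 2 * N := abs_le.2 ⟨by linarith, by linarith⟩
      have c2 := mul_le_mul_of_nonneg_right c1 s'0.le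
      have c4 := mul_le_mul_of_nonneg_left a6.2 ts.le
      have c5 := mul_le_mul_of_nonneg_left a7.1 ts.le
      rw [abs_le] at a1 a3
      linarith [a1.2, a3.1, a5.1]) (fun i hi => by
      have a5 := abs_le.1 (hkey (u3 _) (u3 _) (zone b i hi.le).2 (zone b (i + 1) hi).2)
      have a6 := abs_le.1 (u1 (n b + i))
      have a7 := abs_le.1 (u1 (n b + (i + 1 : ℕ)))
      generalize t (n b + i) = u at *
      generalize t (n b + (i + 1 : ℕ)) = u' at *
      push_cast at a6 a7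
      have c1 : |(u' : ℝ) - u| ≤ 2 * N + 1 := abs_le.2 ⟨by linarith, by linarith⟩
      have c2 := mul_le_mul_of_nonneg_right c1 s'0.le
      have c3 := hg.add (x + u • α) ((u' - u) • α)
      have c4 := hgt (u' - u)
      rw [add_assoc, ← add_smul, add_sub_cancel] at c3
      rw [Int.cast_sub] at c4
      have c5 := mul_le_mul_of_nonneg_left c1 ts.le
      have c6 := mul_le_mul_of_nonneg_left (c3.trans (add_le_add_right c4 _)) t0.le
      linarith [a5.2])
  exact ⟨t (n b + i), by linarith [u2 (n b + i)], abs_lt.2 ⟨by linarith, by linarith⟩⟩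

lemma dense_large (hα : DenseRange fun n : ℤ => n • α) (C : ℕ) :
    Dense {x | ∃ K, (C : ℝ) < P.F K x} := by
  refine dense_iff_inter_open.2 fun V hV hne => ?_
  obtain ⟨M, -, hM⟩ := unif_visit hα hV hne
  obtain ⟨k, hk⟩ := exists_nat_ge (M + C)
  have a1 := P.H_ge k
  have a2 := P.h_ge' k
  have a3 := D2 k
  have a4 : (0 : ℝ) ≤ C := by positivity
  obtain ⟨m, m1, m2⟩ := hM (round (2 * P.H k) • α)
  rw [← add_smul] at m2
  have m3 := abs_le.1 (abs_sub_round (2 * P.H k))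
  have m4 := abs_le.1 m1
  have m0 : (k : ℝ) + 2 ≤ ((k : ℝ) + 2) ^ 2 := by nlinarith
  have m5 : P.H k ≤ ((round (2 * P.H k) + m : ℤ) : ℝ) := by push_cast; linarith [m3.2, m4.1]
  have m6 := (P.lv k).low (round (2 * P.H k) + m) (by
    rw [abs_of_nonneg (by linarith)]; push_cast; linarith [m3.1, m4.2])
  rw [abs_of_nonneg (by linarith)] at m6
  have m7 := P.min_le_ψ k ((round (2 * P.H k) + m) • α)
  rw [min_eq_right ((mul_le_mul_of_nonneg_left m5 (P.lv k).s_pos.le).trans m6)] at m7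
  refine ⟨_, m2, k + 1, ?_⟩
  rw [F_succ]
  linarith [P.F_nonneg k ((round (2 * P.H k) + m) • α), m4.1, m4.2]

lemma exists_large (hα : DenseRange fun n : ℤ => n • α) :
    ∃ x, ∀ C : ℕ, (∃ K, (C : ℝ) < P.F K x) ∧ ∃ K, (C : ℝ) < P.F K (P.z - x) := by
  have h1 : ∀ C : ℕ, IsOpen {x | ∃ K, (C : ℝ) < P.F K x} := fun C => by
    rw [Set.ofPred_exists]
    exact isOpen_iUnion fun K => isOpen_lt continuous_const
      (continuous_finsetSum _ fun k _ => P.ψ_cont k)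
  obtain ⟨x, hx⟩ := (dense_iInter_of_isOpen (f := fun C : ℕ => {x | ∃ K, (C : ℝ) < P.F K x} ∩
      Homeomorph.subLeft P.z ⁻¹' {x | ∃ K, (C : ℝ) < P.F K x})
    (fun C => (h1 C).inter ((h1 C).preimage (Homeomorph.subLeft P.z).continuous))
    fun C => (P.dense_large hα C).inter_of_isOpen_left
      ((P.dense_large hα C).preimage (Homeomorph.subLeft P.z).isOpenMap) (h1 C)).nonempty
  exact ⟨x, fun C => Set.mem_iInter.1 hx C⟩

end Dat

end Pool.Agent.Lib.MP_c1c973_an.Gen
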