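import Pool.Agent.Lib.MP_c1c973_an.Gen.Arith

/- The levels of the construction. -/

namespace Pool.Agent.Lib.MP_c1c973_an.Gen

set_option linter.unusedSectionVars false

open Filter Topology

variable {X : Type*} [AddCommGroup X] [MetricSpace X] [IsTopologicalAddGroup X] [CompactSpace X]
  {α : X}

/-- continuous invariant gauges -/
structure PN (ν : X → ℝ) : Prop where
  cont : Continuous ν
  zero : ν 0 = 0
  neg : ∀ x, ν (-x) = ν x
  add : ∀ x y, ν (x + y) ≤ ν x + ν y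

lemma PN.nonneg {ν : X → ℝ} (h : PN ν) (x : X) : 0 ≤ ν x := by
  have h1 := h.add x (-x)
  rw [add_neg_cancel, h.zero, h.neg] at h1
  linarith

lemma PN.abs_le {ν : X → ℝ} (h : PN ν) (x y : X) : |ν x - ν y| ≤ ν (x - y) := by
  have h1 := h.add (x - y) y
  have h2 := h.add (-(x - y)) x
  rw [sub_add_cancel] at h1
  rw [h.neg, neg_sub, sub_add_cancel] at h2
  exact _root_.abs_le.2 ⟨by linarith, by linarith⟩

lemma PN.zsmul_le {ν : X → ℝ} (h : PN ν) (x : X) (n : ℤ) : ν (n • x) ≤ |(n : ℝ)| * ν x := by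
  have h1 : ∀ m : ℕ, ν ((m : ℤ) • x) ≤ m * ν x := fun m => by
    induction m with
    | zero => simp [h.zero]
    | succ m ih =>
      rw [Nat.cast_succ, add_smul, one_smul]
      refine (h.add _ _).trans ?_
      push_cast
      linarith
  obtain ⟨m, rfl | rfl⟩ := n.eq_nat_or_neg
  · simpa using h1 m
  · rw [neg_smul, h.neg]
    simpa using h1 m

lemma pn_char {χ : X →+ UnitAddCircle} (hχ : Continuous χ) {c : ℝ} (hc : 0 ≤ c) :
    PN fun x => c * ‖χ x‖ :=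
  ⟨by fun_prop, by simp, fun x => by simp, fun x y => by
    rw [map_add, ← mul_add]
    exact mul_le_mul_of_nonneg_left (norm_add_le _ _) hc⟩

lemma PN.plus {ν ν' : X → ℝ} (h : PN ν) (h' : PN ν') : PN fun x => ν x + ν' x :=
  ⟨h.cont.add h'.cont, by simp [h.zero, h'.zero], fun x => by simp [h.neg, h'.neg],
    fun x y => by linarith [h.add x y, h'.add x y]⟩

/-- infimal convolution with the time -/
noncomputable def ic (α : X) (s : ℝ) (ν : X → ℝ) (x : X) : ℝ :=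
  ⨅ n : ℤ, (s * |(n : ℝ)| + ν (x + n • α))

lemma ic_le {s : ℝ} {ν : X → ℝ} (hs : 0 ≤ s) (h : PN ν) (x : X) (n : ℤ) :
    ic α s ν x ≤ s * |(n : ℝ)| + ν (x + n • α) :=
  ciInf_le ⟨0, by rintro _ ⟨m, rfl⟩; exact add_nonneg (by positivity) (h.nonneg _)⟩ n

lemma ic_lt {s b : ℝ} {ν : X → ℝ} {x : X} (h : ic α s ν x < b) :
    ∃ n : ℤ, s * |(n : ℝ)| + ν (x + n • α) < b := exists_lt_of_ciInf_lt h

lemma ic_le' {s : ℝ} {ν : X → ℝ} (hs : 0 ≤ s) (h : PN ν) (x : X) : ic α s ν x ≤ ν x := by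
  simpa using ic_le (α := α) hs h x 0

lemma pn_ic {s : ℝ} {ν : X → ℝ} (hs : 0 ≤ s) (h : PN ν) : PN (ic α s ν) := by
  have h1 : ∀ x, ic α s ν (-x) ≤ ic α s ν x := fun x => le_ciInf fun n => by
    have h2 := ic_le (α := α) hs h (-x) (-n)
    rwa [neg_smul, ← neg_add, h.neg, Int.cast_neg, abs_neg] at h2
  have h2 : ∀ x y, ic α s ν (x + y) ≤ ic α s ν x + ic α s ν y := fun x y =>
    le_of_forall_pos_le_add fun e he => by
      obtain ⟨n, hn⟩ := ic_lt (lt_add_of_pos_right (ic α s ν x) (half_pos he))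
      obtain ⟨m, hm⟩ := ic_lt (lt_add_of_pos_right (ic α s ν y) (half_pos he))
      have h3 := ic_le (α := α) hs h (x + y) (n + m)
      rw [add_smul, add_add_add_comm, Int.cast_add] at h3
      have h4 := h.add (x + n • α) (y + m • α)
      have h5 := mul_le_mul_of_nonneg_left (abs_add_le (n : ℝ) m) hs
      linarith
  refine ⟨continuous_iff_continuousAt.2 fun y => ?_, le_antisymm ((ic_le' hs h 0).trans h.zero.le)
    (le_ciInf fun n => add_nonneg (by positivity) (h.nonneg _)),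
    fun x => le_antisymm (h1 x) (by simpa using h1 (-x)), h2⟩
  rw [ContinuousAt, tendsto_iff_norm_sub_tendsto_zero]
  have h3 : Continuous fun x => ν (x - y) := h.cont.comp (by fun_prop)
  refine squeeze_zero (fun _ => norm_nonneg _) (fun x => ?_) (by simpa [h.zero] using h3.tendsto y)
  have a1 := h2 (x - y) y
  have a2 := h2 (-(x - y)) x
  have a3 := ic_le' (α := α) hs h (x - y)
  have a4 := h1 (x - y)
  rw [sub_add_cancel] at a1
  rw [neg_sub, sub_add_cancel, ← neg_sub x y] at a2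
  exact abs_le.2 ⟨by linarith, by linarith⟩

lemma dense_orbit (hα : DenseRange fun n : ℤ => n • α) (x : X) :
    DenseRange fun n : ℤ => x + n • α :=
  (Homeomorph.addLeft x).surjective.denseRange.comp hα (Homeomorph.addLeft x).continuous

lemma unif_return (hα : DenseRange fun n : ℤ => n • α) {O : Set (X × X)} (hO : IsOpen O)
    (hd : ∀ y, (y, y) ∈ O) : ∃ N : ℝ, 0 ≤ N ∧ ∀ x y, ∃ n : ℤ, |(n : ℝ)| ≤ N ∧ (x + n • α, y) ∈ O := by
  obtain ⟨t, ht⟩ := isCompact_univ.elim_finite_subcover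
    (fun n : ℤ => {p : X × X | (p.1 + n • α, p.2) ∈ O}) (fun n => hO.preimage (by fun_prop)) (by
      rintro ⟨x, y⟩ -
      obtain ⟨n, hn⟩ := (dense_orbit hα x).exists_mem_open
        (hO.preimage (f := fun a => (a, y)) (by fun_prop)) ⟨y, hd y⟩
      exact Set.mem_iUnion.2 ⟨n, hn⟩)
  refine ⟨∑ n ∈ t, |(n : ℝ)|, by positivity, fun x y => ?_⟩
  obtain ⟨n, h1, h2⟩ := Set.mem_iUnion₂.1 (ht (Set.mem_univ (x, y)))
  exact ⟨n, Finset.single_le_sum (f := fun n : ℤ => |(n : ℝ)|) (fun _ _ => abs_nonneg _) h1, h2⟩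

lemma unif_visit (hα : DenseRange fun n : ℤ => n • α) {V : Set X} (hV : IsOpen V)
    (hne : V.Nonempty) : ∃ N : ℝ, 0 ≤ N ∧ ∀ x, ∃ n : ℤ, |(n : ℝ)| ≤ N ∧ x + n • α ∈ V := by
  obtain ⟨v, hv⟩ := hne
  obtain ⟨N, h1, h2⟩ := unif_return hα (O := {p | p.1 - p.2 + v ∈ V}) (hV.preimage (by fun_prop))
    fun y => by simpa using hv
  exact ⟨N, h1, fun x => by simpa using h2 x v⟩

/-- the properties of one level -/
structure Lv (α : X) (D : ℝ) (G g : X → ℝ) (s H θ N ρ : ℝ) : Prop where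
  pn : PN g
  s_pos : 0 < s
  θ_pos : 0 < θ
  θ_le : θ ≤ 1
  N_nonneg : 0 ≤ N
  one_le : 1 ≤ ρ
  slow : θ * s * (2 * N + 1) * D ≤ 1
  big1 : 16 * D ^ 2 * (10 + 12 * ρ * D) ≤ θ * (s * H)
  big2 : 8 * D ^ 2 * (N + 1) ≤ H
  slope : g α ≤ s
  low : ∀ j : ℤ, |(j : ℝ)| ≤ 8 * H → s * |(j : ℝ)| ≤ g (j • α)
  desc : ∀ x, g x < s * H → ∃ τ : ℤ, s * |(τ : ℝ)| + g (x + τ • α) ≤ g x + 1 ∧
    g (x + τ • α) < s * H ∧ G (x + τ • α) ≤ 1
  cov : ∀ x, ∃ n : ℤ, |(n : ℝ)| ≤ ρ * H ∧ 64 * D ^ 2 * g (x + n • α) ≤ s * H ∧ G (x + n • α) ≤ 1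
  ret : ∀ x y, ∃ n : ℤ, |(n : ℝ)| ≤ N ∧ dist (x + n • α) y < 1 / D ∧ G (x + n • α - y) ≤ 1 / D

/-- the state of the recursion -/
structure St (C : Set (X →+ UnitAddCircle)) where
  G : X → ℝ
  s : ℝ
  V : Set X
  pn : PN G
  dom : ∃ χ ∈ C, ∃ Λ : ℝ, ∀ x, G x ≤ Λ * ‖χ x‖
  s_pos : 0 < s
  opn : IsOpen V
  ne : V.Nonempty

lemma step (hα : DenseRange fun n : ℤ => n • α) {C : Set (X →+ UnitAddCircle)}
    (hC : ∀ χ ∈ C, Continuous χ)
    (hC' : ∀ χ ∈ C, ∀ Λ ε η₀ : ℝ, 0 < ε → ε ≤ 1 → 0 < η₀ → ∃ χ' ∈ C, ∃ κ η : ℝ, 0 ≤ κ ∧ 0 < η ∧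
        η ≤ η₀ ∧ Fine α (fun x => Λ * ‖χ x‖) (fun x => κ * ‖χ' x‖) ε η)
    {D : ℝ} (hD : 2 ≤ D) (a : St C) : ∃ (b : St C) (g : X → ℝ) (H θ N ρ : ℝ),
      Lv α D a.G g a.s H θ N ρ ∧ (∀ x, b.G x = a.G x + g x) ∧ b.s * H = D ∧
        closure b.V ⊆ a.V ∩ {x | 4 * (a.s * H) < g x} := by
  obtain ⟨G, s, V, hG, ⟨χ, hχ, Λ, hΛ⟩, hs, hV, hne⟩ := a
  have hD0 : 0 < D := by linarith
  have hGc := hG.cont
  obtain ⟨N, hN, hN'⟩ := unif_return hα
    (O := {p | dist p.1 p.2 < 1 / D} ∩ {p | G (p.1 - p.2) < 1 / D})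
    ((isOpen_lt (by fun_prop) continuous_const).inter (isOpen_lt (by fun_prop) continuous_const))
    fun y => ⟨by simpa using hD0, by simpa [hG.zero] using hD0⟩
  obtain ⟨M, hM, hM'⟩ := unif_visit hα hV hne
  obtain ⟨θ, t1, t2, t3⟩ : ∃ θ : ℝ, 0 < θ ∧ θ ≤ 1 ∧ θ * s * (2 * N + 1) * D ≤ 1 := by
    refine ⟨min 1 (1 / (s * (2 * N + 1) * D)), by positivity, min_le_left _ _, ?_⟩
    have := (le_div_iff₀ (by positivity)).1 (min_le_right 1 (1 / (s * (2 * N + 1) * D)))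
    linarith
  obtain ⟨ε, e1, e2⟩ : ∃ ε : ℝ, 0 < ε ∧ 1024 * D ^ 2 * ε = 1 :=
    ⟨1 / (1024 * D ^ 2), by positivity, by field_simp⟩
  have e3 : ε ≤ 1 := by nlinarith [mul_pos e1 hD0]
  have e4 : 1 ≤ 64 / ε ^ 2 := by rw [le_div_iff₀ (by positivity)]; nlinarith
  set ρ := 64 / ε ^ 2 with hρ
  obtain ⟨H₀, h0, h1, h2, h3⟩ : ∃ H₀ : ℝ, 0 < H₀ ∧ 16 * D ^ 2 * (10 + 12 * ρ * D) ≤ θ * (s * H₀) ∧
      8 * D ^ 2 * (N + 1) ≤ H₀ ∧ M + 1 ≤ H₀ := by
    refine ⟨max (16 * D ^ 2 * (10 + 12 * ρ * D) / (θ * s)) (max (8 * D ^ 2 * (N + 1)) (M + 1)),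
      by positivity, ?_, (le_max_left _ _).trans (le_max_right _ _),
      (le_max_right _ _).trans (le_max_right _ _)⟩
    have := (div_le_iff₀ (by positivity)).1 (le_max_left (16 * D ^ 2 * (10 + 12 * ρ * D) / (θ * s))
      (max (8 * D ^ 2 * (N + 1)) (M + 1)))
    linarith
  obtain ⟨χ', c1, κ, η, c2, c3, c4, f1, ⟨ω, f2, f3⟩, f4⟩ :=
    hC' χ hχ Λ ε (1 / (16 * H₀)) e1 e3 (by positivity)
  obtain ⟨H, hH⟩ : ∃ H : ℝ, 16 * H * η = 1 := ⟨1 / (16 * η), by field_simp⟩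
  have hH0 : H₀ ≤ H := by
    rw [le_div_iff₀ (by positivity)] at c4
    nlinarith
  have hH1 : 0 < H := by linarith
  have hν := pn_char (hC χ' c1) (c := 16 * H * s * κ) (by positivity)
  have hg := pn_ic (α := α) hs.le hν
  set g := ic α s fun x => 16 * H * s * κ * ‖χ' x‖ with hgd
  have hle : ∀ x, g x ≤ 16 * H * s * κ * ‖χ' x‖ := ic_le' hs.le hν
  have hω : ∀ n : ℤ, ω (n • α) = ((n * η : ℝ) : UnitAddCircle) := fun n => by
    rw [map_zsmul, f2, ← AddCircle.coe_zsmul, zsmul_eq_mul]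
  have hlow : ∀ j : ℤ, |(j : ℝ)| ≤ 8 * H → s * |(j : ℝ)| ≤ g (j • α) := fun j hj =>
    le_ciInf fun n => by
      have a1 : ‖ω (j • α)‖ = |(j : ℝ)| * η := by
        rw [hω, (AddCircle.norm_coe_eq_abs_iff 1 one_ne_zero).2, abs_mul, abs_of_pos c3]
        rw [abs_mul, abs_of_pos c3, abs_one]
        nlinarith
      have a2 : ‖ω (n • α)‖ ≤ |(n : ℝ)| * η := by
        rw [hω]
        refine QuotientAddGroup.norm_mk_le_norm.trans (le_of_eq ?_)
        rw [Real.norm_eq_abs, abs_mul, abs_of_pos c3]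
      have a3 : ‖ω (j • α)‖ ≤ ‖ω (j • α + n • α)‖ + ‖ω (n • α)‖ := by
        have b1 := norm_sub_le (ω (j • α + n • α)) (ω (n • α))
        rwa [← map_sub, add_sub_cancel_right] at b1
      have a4 : (|(j : ℝ)| - |(n : ℝ)|) * η ≤ κ * ‖χ' (j • α + n • α)‖ := by
        linarith [f3 (j • α + n • α)]
      have a5 := mul_le_mul_of_nonneg_left a4 (by positivity : 0 ≤ 16 * H * s)
      have a6 : 16 * H * s * ((|(j : ℝ)| - |(n : ℝ)|) * η) = s * (|(j : ℝ)| - |(n : ℝ)|) := by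
        linear_combination s * (|(j : ℝ)| - |(n : ℝ)|) * hH
      linarith
  obtain ⟨m, m1, m2⟩ := hM' (round (6 * H) • α)
  rw [← add_smul] at m2
  have m3 := abs_le.1 (abs_sub_round (6 * H))
  have m4 := abs_le.1 m1
  have m5 : 4 * H < ((round (6 * H) + m : ℤ) : ℝ) := by push_cast; linarith [m3.2, m4.1]
  have m6 : 4 * (s * H) < g ((round (6 * H) + m) • α) := by
    refine lt_of_lt_of_le ?_ (hlow _ ?_) <;> rw [abs_of_pos (by linarith)]
    · nlinarith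
    · push_cast; linarith [m3.1, m4.2]
  obtain ⟨r, hr, hr'⟩ := Metric.nhds_basis_closedBall.mem_iff.1
    ((hV.inter (isOpen_lt continuous_const hg.cont)).mem_nhds ⟨m2, m6⟩)
  refine ⟨⟨fun x => G x + g x, D / H, Metric.ball _ r, hG.plus hg,
    ⟨χ', c1, κ + 16 * H * s * κ, fun x => by linarith [hΛ x, f1 x, hle x]⟩, by positivity,
    Metric.isOpen_ball, Metric.nonempty_ball.2 hr⟩, g, H, θ, N, ρ,
    ⟨hg, hs, t1, t2, hN, e4, t3, h1.trans (by gcongr), h2.trans hH0, ?_, hlow, fun x hx => ?_,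
      fun x => ?_, fun x y => ?_⟩, fun _ => rfl, div_mul_cancel₀ _ hH1.ne',
    Metric.closure_ball_subset_closedBall.trans hr'⟩
  · simpa using ic_le (α := α) hs.le hν α (-1)
  · obtain ⟨τ, hτ⟩ := ic_lt (lt_min (lt_add_one (g x)) hx)
    have a1 := hτ.trans_le (min_le_left _ _)
    have a2 := hτ.trans_le (min_le_right _ _)
    have a3 := hle (x + τ • α)
    have a4 : 0 ≤ s * |(τ : ℝ)| := by positivity
    refine ⟨τ, by linarith, by linarith, (hΛ _).trans ((f1 _).trans ?_)⟩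
    refine le_of_mul_le_mul_left ?_ (by positivity : 0 < 16 * H * s)
    nlinarith [mul_pos hs hH1]
  · obtain ⟨n, a1, a2⟩ := f4 x
    refine ⟨n, ?_, ?_, (hΛ _).trans ((f1 _).trans (a2.trans e3))⟩
    · have a3 := mul_le_mul_of_nonneg_left a1 (by positivity : 0 ≤ 16 * H)
      have a4 : 16 * H * (|(n : ℝ)| * η) = |(n : ℝ)| := by linear_combination |(n : ℝ)| * hH
      have a5 : 16 * H * (4 / ε ^ 2) = ρ * H := by rw [hρ]; ring
      linarith
    · have a3 := mul_le_mul_of_nonneg_left a2 (by positivity : 0 ≤ 16 * H * s)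
      have a4 : g (x + n • α) ≤ 16 * H * s * ε := by linarith [hle (x + n • α)]
      refine (mul_le_mul_of_nonneg_left a4 (by positivity)).trans (le_of_eq ?_)
      linear_combination s * H * e2
  · obtain ⟨n, a1, a2, a3⟩ := hN' x y
    exact ⟨n, a1, a2, le_of_lt a3⟩

/-- the data of the construction -/
structure Dat (α : X) where
  g : ℕ → X → ℝ
  s : ℕ → ℝ
  H : ℕ → ℝ
  θ : ℕ → ℝ
  N : ℕ → ℝ
  ρ : ℕ → ℝ
  z : X
  lv : ∀ k : ℕ, Lv α (k + 2) (fun x => ∑ i ∈ Finset.range k, g i x) (g k) (s k) (H k) (θ k) (N k)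
    (ρ k)
  s_succ : ∀ k : ℕ, s (k + 1) * H k = k + 2
  far : ∀ k, 4 * (s k * H k) < g k z

theorem exists_dat [Infinite X] (hα : DenseRange fun n : ℤ => n • α) : Nonempty (Dat α) := by
  obtain ⟨C, ⟨χ, hχ⟩, hC, hC'⟩ := exists_class hα
  choose nx g H θ N ρ h1 h2 h3 h4 using fun (k : ℕ) (a : St C) =>
    step hα hC hC' (D := k + 2) (by have : (0 : ℝ) ≤ k := by positivity
                                    linarith) a
  let a₀ : St C := ⟨fun _ => 0, 1, Set.univ, ⟨continuous_const, rfl, fun _ => rfl, by simp⟩,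
    ⟨χ, hχ, 0, by simp⟩, one_pos, isOpen_univ, Set.univ_nonempty⟩
  let a : ℕ → St C := fun k => Nat.rec a₀ nx k
  have ha : ∀ k, a (k + 1) = nx k (a k) := fun _ => rfl
  have hG : ∀ k, (a k).G = fun x => ∑ i ∈ Finset.range k, g i (a i) x := fun k => by
    induction k with
    | zero => funext x; simp [a, a₀]
    | succ k ih => funext x; rw [ha, h2, ih, Finset.sum_range_succ]
  obtain ⟨z, hz⟩ := IsCompact.nonempty_iInter_of_sequence_nonempty_isCompact_isClosed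
    (fun k => closure (a k).V) (fun k => ((h4 k (a k)).trans Set.inter_subset_left).trans
      subset_closure) (fun k => (a k).ne.closure) isClosed_closure.isCompact
    fun _ => isClosed_closure
  exact ⟨⟨fun k => g k (a k), fun k => (a k).s, fun k => H k (a k), fun k => θ k (a k),
    fun k => N k (a k), fun k => ρ k (a k), z, fun k => hG k ▸ h1 k (a k), fun k => h3 k (a k),
    fun k => (h4 k (a k) (Set.mem_iInter.1 hz (k + 1))).2⟩⟩

end Pool.Agent.Lib.MP_c1c973_an.Gen
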