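import Pool.Agent.Lib.MP_c1c973_an.Gen.Level

/- The cocycle and its Birkhoff sums. -/

namespace Pool.Agent.Lib.MP_c1c973_an.Gen

set_option linter.unusedSectionVars false

open Filter Topology

variable {X : Type*} [AddCommGroup X] [MetricSpace X] [IsTopologicalAddGroup X] [CompactSpace X]
  {α : X}

lemma PN.min {g : X → ℝ} (hg : PN g) {c : ℝ} (hc : 0 ≤ c) : PN fun x => min (g x) c :=
  ⟨hg.cont.min continuous_const, by simp [hg.zero, hc], fun x => by simp [hg.neg], fun x y => by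
    have a1 := hg.add x y
    have a2 := hg.nonneg x
    have a3 := hg.nonneg y
    have a4 := min_le_left (g (x + y)) c
    have a5 := min_le_right (g (x + y)) c
    rcases le_total (g x) c with b1 | b1 <;> rcases le_total (g y) c with b2 | b2 <;>
      simp only [min_eq_left, min_eq_right, b1, b2] <;> linarith⟩

lemma PN.smul {g : X → ℝ} (hg : PN g) {c : ℝ} (hc : 0 ≤ c) : PN fun x => c * g x :=
  ⟨continuous_const.mul hg.cont, by simp [hg.zero], fun x => by simp [hg.neg], fun x y => by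
    linarith [mul_le_mul_of_nonneg_left (hg.add x y) hc]⟩

/-- the truncated gauge with a slow zone -/
noncomputable def pp (g : X → ℝ) (h θ : ℝ) (x : X) : ℝ :=
  (1 - θ) * min (g x) h + θ * min (g x) (2 * h)

/-- the antisymmetrized truncated gauge -/
noncomputable def ps (g : X → ℝ) (h θ : ℝ) (z x : X) : ℝ :=
  pp g h θ x - pp g h θ (x - z) + (1 + θ) * h

section

variable {g : X → ℝ} {h θ : ℝ} {z : X}

lemma pn_pp (hg : PN g) (hh : 0 ≤ h) (t0 : 0 ≤ θ) (t1 : θ ≤ 1) : PN (pp g h θ) :=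
  ((hg.min hh).smul (sub_nonneg.2 t1)).plus ((hg.min (by linarith)).smul t0)

lemma pp_le (t0 : 0 ≤ θ) (t1 : θ ≤ 1) (x : X) : pp g h θ x ≤ g x := by
  have a1 := mul_le_mul_of_nonneg_left (min_le_left (g x) h) (sub_nonneg.2 t1)
  have a2 := mul_le_mul_of_nonneg_left (min_le_left (g x) (2 * h)) t0
  unfold pp
  linarith

lemma pp_le_top (t0 : 0 ≤ θ) (t1 : θ ≤ 1) (x : X) : pp g h θ x ≤ (1 + θ) * h := by
  have a1 := mul_le_mul_of_nonneg_left (min_le_right (g x) h) (sub_nonneg.2 t1)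
  have a2 := mul_le_mul_of_nonneg_left (min_le_right (g x) (2 * h)) t0
  unfold pp
  linarith

lemma min_le_pp (hh : 0 ≤ h) (t0 : 0 ≤ θ) (x : X) : min (g x) h ≤ pp g h θ x := by
  have a2 := mul_le_mul_of_nonneg_left (min_le_min_left (g x) (by linarith : h ≤ 2 * h)) t0
  unfold pp
  linarith

lemma ps_eq (hg : PN g) (hh : 0 ≤ h) (hz : 4 * h < g z) {x : X} (hx : g x ≤ 2 * h) :
    ps g h θ z x = (1 - θ) * min (g x) h + θ * g x := by
  have a1 := hg.add (-(x - z)) x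
  rw [hg.neg, neg_sub, sub_add_cancel] at a1
  unfold ps pp
  rw [min_eq_left hx, min_eq_right (by linarith : h ≤ g (x - z)),
    min_eq_right (by linarith : 2 * h ≤ g (x - z))]
  ring

lemma ps_lip (hg : PN g) (hh : 0 ≤ h) (t0 : 0 ≤ θ) (t1 : θ ≤ 1) (x y : X) :
    |ps g h θ z (x + y) - ps g h θ z x| ≤ 2 * g y := by
  have a1 := abs_le.1 ((pn_pp hg hh t0 t1).abs_le (x + y) x)
  have a2 := abs_le.1 ((pn_pp hg hh t0 t1).abs_le (x + y - z) (x - z))
  rw [add_sub_cancel_left] at a1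
  rw [sub_sub_sub_cancel_right, add_sub_cancel_left] at a2
  have a3 := pp_le (g := g) (h := h) t0 t1 y
  unfold ps
  exact abs_le.2 ⟨by linarith, by linarith⟩

lemma ps_refl (hg : PN g) (x : X) : ps g h θ z (z - x) = 2 * ((1 + θ) * h) - ps g h θ z x := by
  unfold ps pp
  rw [sub_sub_cancel_left, hg.neg, ← neg_sub x z, hg.neg]
  ring

end

namespace Dat

variable (P : Dat α)

/-- the potential of level `k` -/
noncomputable def ψ (k : ℕ) : X → ℝ := ps (P.g k) (P.s k * P.H k) (P.θ k) P.z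

/-- the Birkhoff sums -/
noncomputable def Ψ (x : X) (n : ℤ) : ℝ := ∑' k, (P.ψ k (x + n • α) - P.ψ k x)

/-- the partial potentials -/
noncomputable def F (K : ℕ) (x : X) : ℝ := ∑ k ∈ Finset.range K, P.ψ k x

lemma D2 (k : ℕ) : (2 : ℝ) ≤ k + 2 := le_add_of_nonneg_left (by positivity)

lemma H_ge (k : ℕ) : 8 * ((k : ℝ) + 2) ^ 2 ≤ P.H k := by
  have a1 := (P.lv k).big2
  have a2 := mul_nonneg (sq_nonneg ((k : ℝ) + 2)) (P.lv k).N_nonneg
  linarith

lemma H_pos (k : ℕ) : 0 < P.H k := lt_of_lt_of_le (by positivity) (P.H_ge k)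

lemma h_pos (k : ℕ) : 0 < P.s k * P.H k := mul_pos (P.lv k).s_pos (P.H_pos k)

lemma h_ge (k : ℕ) : 16 * ((k : ℝ) + 2) ^ 2 * (10 + 12 * P.ρ k * (k + 2)) ≤ P.s k * P.H k :=
  (P.lv k).big1.trans (mul_le_of_le_one_left (P.h_pos k).le (P.lv k).θ_le)

lemma h_ge' (k : ℕ) : 160 * ((k : ℝ) + 2) ^ 2 ≤ P.s k * P.H k := by
  have a1 := P.h_ge k
  have a2 : 0 ≤ P.ρ k := zero_le_one.trans (P.lv k).one_le
  have a3 : 0 ≤ ((k : ℝ) + 2) ^ 2 * (P.ρ k * (k + 2)) := by positivity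
  linarith

lemma s_le (k : ℕ) : 8 * P.s (k + 1) ≤ P.s k := by
  refine le_of_mul_le_mul_right ?_ (P.H_pos k)
  have a1 := P.h_ge' k
  have a2 := P.s_succ k
  have a3 := D2 k
  nlinarith

lemma s_geo (K k : ℕ) : P.s (k + K) ≤ P.s K * (1 / 2) ^ k := by
  induction k with
  | zero => simp
  | succ k ih =>
    have a1 := P.s_le (k + K)
    have a2 := (P.lv (k + K + 1)).s_pos
    rw [add_right_comm, pow_succ]
    linarith

lemma g_time (k : ℕ) (n : ℤ) : P.g k (n • α) ≤ P.s k * |(n : ℝ)| := by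
  have a1 := (P.lv k).pn.zsmul_le α n
  have a2 := mul_le_mul_of_nonneg_left (P.lv k).slope (abs_nonneg (n : ℝ))
  linarith

lemma ψ_lip (k : ℕ) (x y : X) : |P.ψ k (x + y) - P.ψ k x| ≤ 2 * P.g k y :=
  ps_lip (P.lv k).pn (P.h_pos k).le (P.lv k).θ_pos.le (P.lv k).θ_le x y

lemma ψ_time (K k : ℕ) (x : X) (n : ℤ) :
    ‖P.ψ (k + K) (x + n • α) - P.ψ (k + K) x‖ ≤ 2 * |(n : ℝ)| * P.s K * (1 / 2) ^ k := by
  have a1 := P.ψ_lip (k + K) x (n • α)
  have a2 := P.g_time (k + K) n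
  have a3 := mul_le_mul_of_nonneg_left (P.s_geo K k) (abs_nonneg (n : ℝ))
  rw [Real.norm_eq_abs]
  linarith

lemma summ (x : X) (n : ℤ) : Summable fun k => P.ψ k (x + n • α) - P.ψ k x :=
  Summable.of_norm_bounded (summable_geometric_two.mul_left _) fun k => P.ψ_time 0 k x n

lemma Ψ_split (K : ℕ) (x : X) (n : ℤ) :
    |P.Ψ x n - (P.F K (x + n • α) - P.F K x)| ≤ 4 * |(n : ℝ)| * P.s K := by
  have a1 := (P.summ x n).sum_add_tsum_nat_add K
  have a2 := tsum_of_norm_bounded (hasSum_geometric_two.mul_left (2 * |(n : ℝ)| * P.s K))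
    fun k => P.ψ_time K k x n
  unfold Ψ F
  rw [← a1, Finset.sum_sub_distrib, add_sub_cancel_left, ← Real.norm_eq_abs]
  linarith

lemma Ψ_zero (x : X) : P.Ψ x 0 = 0 := by simp [Ψ]

lemma Ψ_add (x : X) (m n : ℤ) : P.Ψ x (m + n) = P.Ψ x m + P.Ψ (x + m • α) n := by
  unfold Ψ
  rw [← (P.summ x m).tsum_add (P.summ _ n), add_smul, ← add_assoc]
  exact tsum_congr fun k => by ring

lemma Ψ_refl (x : X) (n : ℤ) : P.Ψ (P.z - x) n = -P.Ψ x (-n) := by
  unfold Ψ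
  rw [← tsum_neg]
  refine tsum_congr fun k => ?_
  have a1 : P.z - x + n • α = P.z - (x + (-n) • α) := by rw [neg_smul]; abel
  rw [a1]
  unfold ψ
  rw [ps_refl (P.lv k).pn, ps_refl (P.lv k).pn]
  ring

lemma ψ_cont (k : ℕ) : Continuous (P.ψ k) := by
  have a1 := (pn_pp (P.lv k).pn (P.h_pos k).le (P.lv k).θ_pos.le (P.lv k).θ_le).cont
  unfold ψ ps
  fun_prop

lemma Ψ_cont (n : ℤ) : Continuous fun x => P.Ψ x n :=
  continuous_tsum (fun k => ((P.ψ_cont k).comp (by fun_prop)).sub (P.ψ_cont k))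
    (summable_geometric_two.mul_left _) fun k x => P.ψ_time 0 k x n

lemma pp_le_ψ (k : ℕ) (x : X) : pp (P.g k) (P.s k * P.H k) (P.θ k) x ≤ P.ψ k x := by
  have a1 := pp_le_top (g := P.g k) (h := P.s k * P.H k) (P.lv k).θ_pos.le (P.lv k).θ_le (x - P.z)
  unfold ψ ps
  linarith

lemma min_le_ψ (k : ℕ) (x : X) : min (P.g k x) (P.s k * P.H k) ≤ P.ψ k x :=
  (min_le_pp (P.h_pos k).le (P.lv k).θ_pos.le x).trans (P.pp_le_ψ k x)

lemma ψ_nonneg (k : ℕ) (x : X) : 0 ≤ P.ψ k x :=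
  (le_min ((P.lv k).pn.nonneg x) (P.h_pos k).le).trans (P.min_le_ψ k x)

lemma ψ_low (k : ℕ) {x : X} (hx : P.g k x ≤ P.s k * P.H k) : P.ψ k x = P.g k x := by
  unfold ψ
  rw [ps_eq (P.lv k).pn (P.h_pos k).le (P.far k) (by linarith [P.h_pos k]), min_eq_left hx]
  ring

lemma ψ_slow (k : ℕ) {x : X} (h1 : P.s k * P.H k ≤ P.g k x) (h2 : P.g k x ≤ 2 * (P.s k * P.H k)) :
    P.ψ k x = (1 - P.θ k) * (P.s k * P.H k) + P.θ k * P.g k x := by
  unfold ψ
  rw [ps_eq (P.lv k).pn (P.h_pos k).le (P.far k) h2, min_eq_right h1]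

lemma F_succ (K : ℕ) (x : X) : P.F (K + 1) x = P.F K x + P.ψ K x := Finset.sum_range_succ _ _

lemma F_nonneg (K : ℕ) (x : X) : 0 ≤ P.F K x := Finset.sum_nonneg fun k _ => P.ψ_nonneg k x

lemma F_mono (x : X) : Monotone fun K => P.F K x :=
  monotone_nat_of_le_succ fun K => by rw [F_succ]; linarith [P.ψ_nonneg K x]

lemma F_zero (K : ℕ) : P.F K 0 = 0 := Finset.sum_eq_zero fun k _ => by
  rw [P.ψ_low k (by rw [(P.lv k).pn.zero]; exact (P.h_pos k).le), (P.lv k).pn.zero]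

lemma F_lip (K : ℕ) (x y : X) :
    |P.F K (x + y) - P.F K x| ≤ 2 * ∑ i ∈ Finset.range K, P.g i y := by
  unfold F
  rw [← Finset.sum_sub_distrib, Finset.mul_sum]
  exact (Finset.abs_sum_le_sum_abs _ _).trans (Finset.sum_le_sum fun k _ => P.ψ_lip k x y)

lemma F_le (K : ℕ) (y : X) : P.F K y ≤ 2 * ∑ i ∈ Finset.range K, P.g i y := by
  have a1 := P.F_lip K 0 y
  rw [zero_add, F_zero, sub_zero] at a1
  exact (le_abs_self _).trans a1

lemma F_le_of_bdd {x : X} {B : ℝ} (hB : ∀ n, -B ≤ P.Ψ x n) (k : ℕ) : P.F k x ≤ B + 3 := by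
  obtain ⟨K, hk, hK⟩ : ∃ K : ℕ, k ≤ K ∧ B ≤ K := ⟨max k ⌈B⌉₊, le_max_left _ _,
    (Nat.le_ceil B).trans (by exact_mod_cast le_max_right _ _)⟩
  refine (P.F_mono x hk).trans ?_
  have L := P.lv K
  have d2 := D2 K
  have hx : P.g K x < P.s K * P.H K := by
    obtain ⟨n, a1, a2, a3⟩ := L.cov x
    have a4 := (abs_le.1 (P.Ψ_split (K + 1) x n)).2
    have a5 := P.F_le (K + 1) (x + n • α)
    rw [Finset.sum_range_succ] at a5
    have a6 := mul_le_mul_of_nonneg_left a1 (P.lv (K + 1)).s_pos.le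
    have a7 : P.s (K + 1) * (P.ρ K * P.H K) = P.ρ K * (K + 2) := by rw [← P.s_succ K]; ring
    have a8 := P.h_ge K
    have a9 := mul_le_mul_of_nonneg_right (by nlinarith : (4 : ℝ) ≤ ((K : ℝ) + 2) ^ 2)
      (L.pn.nonneg (x + n • α))
    have b1 : 0 ≤ P.ρ K * (K + 2) := mul_nonneg (zero_le_one.trans L.one_le) (by positivity)
    have b2 := mul_le_mul_of_nonneg_right (by nlinarith : (4 : ℝ) ≤ ((K : ℝ) + 2) ^ 2) b1
    have b3 := P.min_le_ψ K x
    have b4 := P.F_succ K x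
    have b5 := P.F_nonneg K x
    have b6 := hB n
    have b7 : (K : ℝ) + 2 ≤ ((K : ℝ) + 2) ^ 2 := by nlinarith
    by_contra hc
    rw [min_eq_right (not_lt.1 hc)] at b3
    linarith
  obtain ⟨τ, a1, a2, a3⟩ := L.desc x hx
  have a4 := (abs_le.1 (P.Ψ_split (K + 1) x τ)).2
  rw [F_succ, F_succ, P.ψ_low K hx.le, P.ψ_low K a2.le] at a4
  have a5 := P.F_le K (x + τ • α)
  have a6 := mul_le_mul_of_nonneg_left (P.s_le K) (abs_nonneg (τ : ℝ))
  have a7 := mul_nonneg (abs_nonneg (τ : ℝ)) L.s_pos.le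
  have a8 := hB τ
  show P.F K x ≤ B + 3
  linarith

lemma tendsto_of_F_le {x : X} {C : ℝ} (hC : ∀ K, P.F K x ≤ C) :
    Tendsto (P.Ψ x) cofinite atTop := by
  refine tendsto_atTop.2 fun A => ?_
  obtain ⟨K, hK⟩ := exists_nat_ge (2 * (A + 2 * C))
  have hfin : ∀ᶠ n : ℤ in cofinite, ∑ i ∈ Finset.range (K + 1), P.H i < |(n : ℝ)| := by
    rw [Int.cofinite_eq, eventually_sup]
    exact ⟨(tendsto_abs_atBot_atTop.comp (tendsto_intCast_atBot_iff.2 tendsto_id)).eventually_gt_atTop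
      _, (tendsto_abs_atTop_atTop.comp tendsto_intCast_atTop_atTop).eventually_gt_atTop _⟩
  filter_upwards [hfin] with n hn
  have hex : ∃ k, |(n : ℝ)| ≤ P.H k := by
    obtain ⟨k, hk⟩ := exists_nat_ge |(n : ℝ)|
    exact ⟨k, by nlinarith [P.H_ge k, D2 k]⟩
  classical
  have h1 := Nat.find_spec hex
  have h2 : K < Nat.find hex := by
    by_contra hc
    have := Finset.single_le_sum (f := P.H) (fun i _ => (P.H_pos i).le)
      (Finset.mem_range.2 (Nat.lt_succ_of_le (not_lt.1 hc)))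
    linarith
  obtain ⟨j, hj⟩ : ∃ j, Nat.find hex = j + 1 := ⟨Nat.find hex - 1, by omega⟩
  have h3 := not_le.1 (Nat.find_min hex (m := j) (by omega))
  have h4 : (K : ℝ) ≤ j := by exact_mod_cast (by omega : K ≤ j)
  rw [hj] at h1
  have L := P.lv (j + 1)
  have a1 := (abs_le.1 (P.Ψ_split (j + 1 + 1) x n)).1
  have a2 := P.F_succ (j + 1) (x + n • α)
  have a3 := P.F_succ (j + 1) x
  have a0 := pn_pp L.pn (P.h_pos (j + 1)).le L.θ_pos.le L.θ_le
  have a4 := a0.add (x + n • α) (-x)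
  rw [a0.neg, add_neg_cancel_comm] at a4
  have a5 := min_le_pp (g := P.g (j + 1)) (P.h_pos (j + 1)).le L.θ_pos.le (n • α)
  have a6 := le_min (L.low n (by linarith [P.H_pos (j + 1)]))
    (mul_le_mul_of_nonneg_left h1 L.s_pos.le)
  have a7 := mul_le_mul_of_nonneg_left (P.s_le (j + 1)) (abs_nonneg (n : ℝ))
  have a8 := mul_le_mul_of_nonneg_left h3.le L.s_pos.le
  linarith [P.s_succ j, P.pp_le_ψ (j + 1) x, P.pp_le_ψ (j + 1) (x + n • α), hC (j + 1 + 1),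
    P.F_nonneg (j + 1) x, P.F_nonneg (j + 1) (x + n • α)]

end Dat

end Pool.Agent.Lib.MP_c1c973_an.Gen
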